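import Pool.Agent.Lib_helper12.WFT.Descent

/-!
Base change of `DD φ`: `DD φ_S = S · DD φ_R`.
-/

namespace WFT12

open Submodule

/-- On a field which is finite over its `q`-th powers every nonzero Cartier map has a dual
family. -/
theorem exists_dual {K : Type*} [Field K] {q : ℕ} (hq : 0 < q)
    (hadd : ∀ x y : K, (x + y) ^ q = x ^ q + y ^ q) {φ : K →+ K} (hφ : IsCar q φ) (hφ0 : φ ≠ 0)
    {ι : Type*} [Fintype ι] (e : ι → K) (he : ∀ h : K, ∃ c : ι → K, h = ∑ i, c i ^ q * e i) :
    ∃ e' : ι → K, ∀ h : K, h = ∑ i, φ (h * e i) ^ q * e' i := by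
  classical
  let F : K →+* K :=
    { toFun := fun x => x ^ q
      map_one' := one_pow q
      map_mul' := fun x y => mul_pow x y q
      map_zero' := zero_pow hq.ne'
      map_add' := hadd }
  let k₀ : Subfield K := F.fieldRange
  have hmem : ∀ x : K, x ^ q ∈ k₀ := fun x => ⟨x, rfl⟩
  let f : K →ₗ[k₀] (ι → k₀) :=
    { toFun := fun h i => ⟨φ (h * e i) ^ q, hmem _⟩
      map_add' := by
        intro x y
        ext i
        show φ ((x + y) * e i) ^ q = φ (x * e i) ^ q + φ (y * e i) ^ q
        rw [add_mul, map_add, hadd]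
      map_smul' := by
        rintro ⟨c, d, hd⟩ x
        ext i
        show φ (c * x * e i) ^ q = c * φ (x * e i) ^ q
        have hd' : d ^ q = c := hd
        rw [← hd', mul_assoc, hφ, mul_pow] }
  have hf : Function.Injective f := by
    rw [injective_iff_map_eq_zero]
    intro h hh
    have h1 : ∀ i, φ (h * e i) = 0 := by
      intro i
      have := congrArg Subtype.val (congrFun hh i)
      exact pow_eq_zero_iff hq.ne' |>.1 this
    by_contra h0
    apply hφ0
    ext x
    obtain ⟨c, hc⟩ := he (x / h)
    have hx : x = ∑ i, c i ^ q * (h * e i) := by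
      have : x = h * (x / h) := by field_simp
      rw [this, hc, Finset.mul_sum]
      refine Finset.sum_congr rfl fun i _ => by ring
    rw [hx, map_sum]
    simp only [hφ _ _, h1, mul_zero, Finset.sum_const_zero]
    rfl
  obtain ⟨g, hg⟩ := f.exists_leftInverse_of_injective (LinearMap.ker_eq_bot.2 hf)
  refine ⟨fun i => g (Pi.single i 1), fun h => ?_⟩
  have h1 : h = g (f h) := by
    have := LinearMap.congr_fun hg h
    exact this.symm
  have h2 : f h = ∑ i, f h i • (Pi.single i (1 : k₀) : ι → k₀) := by
    ext j
    rw [Finset.sum_apply, Finset.sum_eq_single j]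
    · simp
    · intro b _ hb; simp [hb.symm]
    · intro hj; exact absurd (Finset.mem_univ _) hj
  conv_lhs => rw [h1, h2, map_sum]
  refine Finset.sum_congr rfl fun i _ => ?_
  rw [map_smul]
  rfl

section

variable {R S K L : Type*} [CommRing R] [CommRing S] [Algebra R S]
  [Field K] [Algebra R K] [Field L] [Algebra S L] [Algebra R L]
  [Algebra K L] [IsScalarTower R K L] [IsScalarTower R S L]

/-- elements of the fraction field as combinations with `q`-th power coefficients -/
theorem span_frac [IsDomain R] [IsFractionRing R K] {q : ℕ} (hq : 0 < q) {ι : Type*} [Fintype ι]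
    (e : ι → R) (he : ∀ r : R, ∃ c : ι → R, r = ∑ i, c i ^ q * e i) (h : K) :
    ∃ c : ι → K, h = ∑ i, c i ^ q * algebraMap R K (e i) := by
  obtain ⟨a, b, hb, rfl⟩ := IsFractionRing.div_surjective (A := R) h
  have hb0 : b ≠ 0 := nonZeroDivisors.ne_zero hb
  have hinjR := IsFractionRing.injective R K
  have hbK : algebraMap R K b ≠ 0 := fun h0 => hb0 (hinjR (by rw [h0, map_zero]))
  obtain ⟨c, hc⟩ := he (a * b ^ (q - 1))
  refine ⟨fun i => algebraMap R K (c i) / algebraMap R K b, ?_⟩
  have h1 : algebraMap R K a / algebraMap R K b =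
      algebraMap R K (a * b ^ (q - 1)) / algebraMap R K b ^ q := by
    obtain ⟨m, rfl⟩ : ∃ m, q = m + 1 := ⟨q - 1, by omega⟩
    simp only [Nat.add_sub_cancel]
    rw [map_mul, map_pow, pow_succ]
    field_simp
  rw [h1, hc, map_sum, Finset.sum_div]
  refine Finset.sum_congr rfl fun i _ => ?_
  rw [map_mul, map_pow, div_pow]
  field_simp

theorem hadd_frac [IsDomain R] [IsFractionRing R K] {q : ℕ}
    (hadd : ∀ x y : R, (x + y) ^ q = x ^ q + y ^ q) (x y : K) :
    (x + y) ^ q = x ^ q + y ^ q := by
  obtain ⟨a, b, hb, rfl⟩ := IsFractionRing.div_surjective (A := R) x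
  obtain ⟨c, d, hd, rfl⟩ := IsFractionRing.div_surjective (A := R) y
  have hb0 : b ≠ 0 := nonZeroDivisors.ne_zero hb
  have hd0 : d ≠ 0 := nonZeroDivisors.ne_zero hd
  have hinj := IsFractionRing.injective R K
  have hbK : algebraMap R K b ≠ 0 := fun h0 => hb0 (hinj (by rw [h0, map_zero]))
  have hdK : algebraMap R K d ≠ 0 := fun h0 => hd0 (hinj (by rw [h0, map_zero]))
  have h1 := congrArg (algebraMap R K) (hadd (a * d) (b * c))
  simp only [map_add, map_mul, map_pow] at h1
  rw [div_add_div _ _ hbK hdK, div_pow, h1, div_pow, div_pow, mul_pow, mul_pow, mul_pow]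
  have := pow_ne_zero q hbK
  have := pow_ne_zero q hdK
  field_simp

theorem extK_ne_zero [IsDomain R] [IsFractionRing R K] {q : ℕ} (hq : 0 < q) {φ : R →+ R}
    (hφ : IsCar q φ) (hφ0 : φ ≠ 0) : extK (K := K) q hq φ hφ ≠ 0 := by
  intro h
  apply hφ0
  ext x
  have h1 := extK_algebraMap (K := K) hq hφ x
  rw [h] at h1
  have h2 : algebraMap R K (φ x) = 0 := h1.symm
  exact IsFractionRing.injective R K (by rw [h2, AddMonoidHom.zero_apply, map_zero])

/-- compatibility of the extensions to the fraction fields -/
theorem extK_base [IsDomain R] [IsFractionRing R K] [IsDomain S] [IsFractionRing S L]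
    {q : ℕ} (hq : 0 < q) {φ : R →+ R} (hφ : IsCar q φ) {φS : S →+ S} (hφS : IsCar q φS)
    (y : S) (ρ : R →+ S) (hρ : ∀ r, φS (algebraMap R S r * y) = ρ r)
    (ψ : K →+ L) (hψc : ∀ x z : K, ψ (x ^ q * z) = algebraMap K L x * ψ z)
    (hψ : ∀ r, ψ (algebraMap R K r) = algebraMap S L (ρ r)) (x : K) :
    extK q hq φS hφS (algebraMap K L x * algebraMap S L y) = ψ x := by
  obtain ⟨a, b, hb, rfl⟩ := IsFractionRing.div_surjective (A := R) x
  have hb0 : b ≠ 0 := nonZeroDivisors.ne_zero hb
  have hinjR := IsFractionRing.injective R K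
  have hbK : algebraMap R K b ≠ 0 := fun h0 => hb0 (hinjR (by rw [h0, map_zero]))
  have hbL : algebraMap K L (algebraMap R K b) ≠ 0 :=
    fun h => hbK ((map_eq_zero (algebraMap K L)).1 h)
  have h1 : algebraMap R K a / algebraMap R K b =
      (1 / algebraMap R K b) ^ q * algebraMap R K (a * b ^ (q - 1)) := by
    obtain ⟨m, rfl⟩ : ∃ m, q = m + 1 := ⟨q - 1, by omega⟩
    simp only [Nat.add_sub_cancel]
    rw [map_mul, map_pow, pow_succ, one_div, inv_pow]
    field_simp
  rw [h1, hψc, map_mul (algebraMap K L), map_pow (algebraMap K L), mul_assoc,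
    extK_car hq hφS, hψ]
  congr 1
  rw [← IsScalarTower.algebraMap_apply R K L, IsScalarTower.algebraMap_apply R S L, ← map_mul,
    extK_algebraMap, hρ]

/-- Base change of `DD φ`. -/
theorem DD_extS [IsDomain R] [IsFractionRing R K] [IsDomain S] [IsFractionRing S L]
    [Module.Flat R S] {q : ℕ} (hq : 0 < q)
    (haddR : ∀ x y : R, (x + y) ^ q = x ^ q + y ^ q)
    (haddS : ∀ x y : S, (x + y) ^ q = x ^ q + y ^ q)
    {φ : R →+ R} (hφ : IsCar q φ) (hφ0 : φ ≠ 0) {φS : S →+ S} (hφS : IsCar q φS)
    {ι J : Type*} [Fintype ι] [Fintype J] [DecidableEq J] (e : ι → R)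
    (he : ∀ r : R, ∃ c : ι → R, r = ∑ i, c i ^ q * e i)
    (b b' : J → S) (j₀ : J) (hj₀ : b' j₀ = 1)
    (hb : ∀ (r : R) (j l : J), φS (algebraMap R S r * (b' j * b l)) =
      if j = l then algebraMap R S (φ r) else 0)
    (hS : ∀ s : S, ∃ c : ι → J → S, s = ∑ i, ∑ j, c i j ^ q * (algebraMap R S (e i) * b j)) :
    DD (K := L) q hq φS hφS = extS S L (DD (K := K) q hq φ hφ) := by
  classical
  have hinjR := IsFractionRing.injective R K
  have hinjS := IsFractionRing.injective S L
  set φK : K →+ K := extK q hq φ hφ with hφK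
  set φL : L →+ L := extK q hq φS hφS with hφL
  have hcarK : IsCar q φK := extK_car hq hφ
  have hcarL : IsCar q φL := extK_car hq hφS
  have haddK := hadd_frac (R := R) (K := K) haddR
  have haddL := hadd_frac (R := S) (K := L) haddS
  have hRL : ∀ r : R, algebraMap R L r = algebraMap K L (algebraMap R K r) := fun r =>
    IsScalarTower.algebraMap_apply R K L r
  have hRSL : ∀ r : R, algebraMap S L (algebraMap R S r) = algebraMap K L (algebraMap R K r) :=
    fun r => by rw [← IsScalarTower.algebraMap_apply R S L, hRL]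
  -- dual family over `K`
  obtain ⟨e', he'⟩ := exists_dual hq haddK hcarK (extK_ne_zero hq hφ hφ0)
    (fun i => algebraMap R K (e i)) (span_frac hq e he)
  have he'' := gen_dual hq hcarK (e := e') (e' := fun i => algebraMap R K (e i)) he'
  -- `φL (x b'_j b_l) = δ φK x`
  have hbL : ∀ (x : K) (j l : J), φL (algebraMap K L x * algebraMap S L (b' j * b l)) =
      if j = l then algebraMap K L (φK x) else 0 := by
    intro x j l
    by_cases hjl : j = l
    · rw [if_pos hjl]
      refine extK_base hq hφ hφS (b' j * b l)
        ((algebraMap R S : R →+* S).toAddMonoidHom.comp φ) (fun r => ?_)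
        ((algebraMap K L : K →+* L).toAddMonoidHom.comp φK) (fun x z => ?_) (fun r => ?_) x
      · rw [hb, if_pos hjl]; rfl
      · show algebraMap K L (φK (x ^ q * z)) = _
        rw [hcarK, map_mul]; rfl
      · show algebraMap K L (φK (algebraMap R K r)) = algebraMap S L (algebraMap R S (φ r))
        rw [hφK, extK_algebraMap, hRSL]
    · rw [if_neg hjl]
      refine extK_base hq hφ hφS (b' j * b l) 0 (fun r => ?_) 0 (fun x z => ?_) (fun r => ?_) x
      · rw [hb, if_neg hjl]; rfl
      · simp
      · simp
  -- spanning of `L`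
  have hspanL : ∀ y : L, ∃ c : ι → J → L,
      y = ∑ i, ∑ j, c i j ^ q * (algebraMap K L (algebraMap R K (e i)) * algebraMap S L (b j)) := by
    intro y
    obtain ⟨c, hc⟩ := span_frac (R := S) (K := L) hq
      (fun p : ι × J => algebraMap R S (e p.1) * b p.2) (by
        intro s
        obtain ⟨c, hc⟩ := hS s
        refine ⟨fun p => c p.1 p.2, ?_⟩
        rw [Fintype.sum_prod_type]
        exact hc) y
    refine ⟨fun i j => c (i, j), ?_⟩
    rw [hc, Fintype.sum_prod_type]
    refine Finset.sum_congr rfl fun i _ => Finset.sum_congr rfl fun j _ => ?_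
    rw [map_mul, hRSL]
  have hφL0 : φL ≠ 0 := by
    obtain ⟨r, hr⟩ : ∃ r, φ r ≠ 0 := by
      by_contra hcon
      push Not at hcon
      exact hφ0 (by ext x; exact hcon x)
    intro h0
    have h1 := hbL (algebraMap R K r) j₀ j₀
    rw [h0, if_pos rfl] at h1
    have h2 : algebraMap K L (φK (algebraMap R K r)) = 0 := h1.symm
    rw [hφK, extK_algebraMap] at h2
    have h3 := (map_eq_zero (algebraMap K L)).1 h2
    exact hr (hinjR (by rw [h3, map_zero]))
  have hnondeg : ∀ z : L, (∀ i j, φL (z * (algebraMap K L (algebraMap R K (e i)) *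
      algebraMap S L (b j))) = 0) → z = 0 := by
    intro z hz
    by_contra h0
    apply hφL0
    ext x
    obtain ⟨c, hc⟩ := hspanL (x / z)
    have hx : x = ∑ i, ∑ j, c i j ^ q * (z * (algebraMap K L (algebraMap R K (e i)) *
        algebraMap S L (b j))) := by
      have : x = z * (x / z) := by field_simp
      rw [this, hc, Finset.mul_sum]
      refine Finset.sum_congr rfl fun i _ => ?_
      rw [Finset.mul_sum]
      refine Finset.sum_congr rfl fun j _ => by ring
    rw [hx, map_sum]
    refine Finset.sum_eq_zero fun i _ => ?_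
    rw [map_sum]
    refine Finset.sum_eq_zero fun j _ => ?_
    rw [hcarL, hz, mul_zero]
  -- expansion over `L`
  have hexp : ∀ h : L, h = ∑ i, ∑ j, φL (h * (algebraMap K L (algebraMap R K (e i)) *
      algebraMap S L (b j))) ^ q * (algebraMap K L (e' i) * algebraMap S L (b' j)) := by
    intro h
    rw [eq_comm, ← sub_eq_zero]
    apply hnondeg
    intro k l
    rw [sub_mul, map_sub, sub_eq_zero]
    have hk : algebraMap K L (algebraMap R K (e k)) =
        ∑ i, algebraMap K L (φK (algebraMap R K (e k) * e' i)) ^ q *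
          algebraMap K L (algebraMap R K (e i)) := by
      conv_lhs => rw [he'' (algebraMap R K (e k)), map_sum]
      refine Finset.sum_congr rfl fun i _ => ?_
      rw [map_mul, map_pow]
    have hrhs : φL (h * (algebraMap K L (algebraMap R K (e k)) * algebraMap S L (b l))) =
        ∑ i, algebraMap K L (φK (algebraMap R K (e k) * e' i)) *
          φL (h * (algebraMap K L (algebraMap R K (e i)) * algebraMap S L (b l))) := by
      conv_lhs => rw [hk, Finset.sum_mul, Finset.mul_sum, map_sum]
      refine Finset.sum_congr rfl fun i _ => ?_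
      rw [← hcarL]
      congr 1
      ring
    rw [hrhs, Finset.sum_mul, map_sum]
    refine Finset.sum_congr rfl fun i _ => ?_
    rw [Finset.sum_mul, map_sum, Finset.sum_eq_single l]
    · have h1 : φL (h * (algebraMap K L (algebraMap R K (e i)) * algebraMap S L (b l))) ^ q *
          (algebraMap K L (e' i) * algebraMap S L (b' l)) *
          (algebraMap K L (algebraMap R K (e k)) * algebraMap S L (b l)) =
          φL (h * (algebraMap K L (algebraMap R K (e i)) * algebraMap S L (b l))) ^ q *
          (algebraMap K L (algebraMap R K (e k) * e' i) * algebraMap S L (b' l * b l)) := by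
        rw [map_mul (algebraMap K L), map_mul (algebraMap S L)]; ring
      rw [h1, hcarL, hbL, if_pos rfl, mul_comm]
    · intro j _ hj
      have h1 : φL (h * (algebraMap K L (algebraMap R K (e i)) * algebraMap S L (b j))) ^ q *
          (algebraMap K L (e' i) * algebraMap S L (b' j)) *
          (algebraMap K L (algebraMap R K (e k)) * algebraMap S L (b l)) =
          φL (h * (algebraMap K L (algebraMap R K (e i)) * algebraMap S L (b j))) ^ q *
          (algebraMap K L (algebraMap R K (e k) * e' i) * algebraMap S L (b' j * b l)) := by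
        rw [map_mul (algebraMap K L), map_mul (algebraMap S L)]; ring
      rw [h1, hcarL, hbL, if_neg hj, mul_zero]
    · intro hl; exact absurd (Finset.mem_univ _) hl
  apply le_antisymm
  · intro h hh
    -- the coordinates are in `S`
    have hs : ∀ (i : ι) (j : J), ∃ s : S, algebraMap S L s =
        φL (h * (algebraMap K L (algebraMap R K (e i)) * algebraMap S L (b j))) := by
      intro i j
      have := hh (algebraMap R S (e i) * b j)
      rw [map_mul (algebraMap S L), hRSL] at this
      exact Submodule.mem_one.1 this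
    choose s hs using hs
    -- common denominator of the matrix
    obtain ⟨d, hd⟩ := IsLocalization.exist_integer_multiples_of_finset (nonZeroDivisors R)
      (Finset.univ.image fun p : ι × ι => φK (algebraMap R K (e p.1) * e' p.2))
    have hd0 : algebraMap R K d ≠ 0 := by simp
    have hd' : ∀ k i : ι, ∃ a : R, algebraMap R K a =
        algebraMap R K d * φK (algebraMap R K (e k) * e' i) := by
      intro k i
      obtain ⟨a, ha⟩ := hd _ (Finset.mem_image_of_mem _ (Finset.mem_univ (k, i)))
      exact ⟨a, by rw [ha, Algebra.smul_def]⟩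
    choose a ha using hd'
    have hrel : ∀ (k : ι) (l : J), algebraMap S L (s k l) =
        ∑ i, algebraMap K L (φK (algebraMap R K (e k) * e' i)) * algebraMap S L (s i l) := by
      intro k l
      have hk : algebraMap K L (algebraMap R K (e k)) =
          ∑ i, algebraMap K L (φK (algebraMap R K (e k) * e' i)) ^ q *
            algebraMap K L (algebraMap R K (e i)) := by
        conv_lhs => rw [he'' (algebraMap R K (e k)), map_sum]
        refine Finset.sum_congr rfl fun i _ => ?_
        rw [map_mul, map_pow]
      conv_lhs => rw [hs, hk, Finset.sum_mul, Finset.mul_sum, map_sum]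
      refine Finset.sum_congr rfl fun i _ => ?_
      rw [hs, ← hcarL]
      congr 1
      ring
    have hsys : ∀ l : J, ∃ (m : ℕ) (r : ι → Fin m → R) (y : Fin m → S),
        (∀ i, s i l = ∑ u, r i u • y u) ∧
        ∀ k u, ∑ i, ((if i = k then (d : R) else 0) - a k i) * r i u = 0 := by
      intro l
      refine flat_system (R := R) (S := S) (fun k i => (if i = k then (d : R) else 0) - a k i)
        (fun i => s i l) ?_
      intro k
      simp only [sub_smul, Finset.sum_sub_distrib, ite_smul, zero_smul, Finset.sum_ite_eq',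
          Finset.mem_univ, if_true]
      apply hinjS
      rw [map_sub, map_zero, map_sum, sub_eq_zero, Algebra.smul_def, map_mul, hRSL, hrel,
        Finset.mul_sum]
      refine Finset.sum_congr rfl fun i _ => ?_
      rw [Algebra.smul_def, map_mul (algebraMap S L), hRSL, ha, map_mul (algebraMap K L)]
      ring
    choose m r y h1 h2 using hsys
    -- the elements of `DD φ`
    have hz : ∀ (l : J) (u : Fin (m l)),
        ∑ i, algebraMap R K (r l i u) ^ q * e' i ∈ DD (K := K) q hq φ hφ := by
      intro l u t
      obtain ⟨c, hc⟩ := he t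
      have h3 : ∀ k, φK ((∑ i, algebraMap R K (r l i u) ^ q * e' i) * algebraMap R K (e k)) =
          algebraMap R K (r l k u) := by
        intro k
        rw [Finset.sum_mul, map_sum]
        have h4 := congrArg (algebraMap R K) (h2 l k u)
        simp only [sub_mul, Finset.sum_sub_distrib, ite_mul, zero_mul, Finset.sum_ite_eq',
          Finset.mem_univ, if_true, map_sub, map_sum, map_mul, map_zero, ha] at h4
        have h5 := sub_eq_zero.1 h4
        apply mul_left_cancel₀ hd0
        rw [h5, Finset.mul_sum]
        refine Finset.sum_congr rfl fun i _ => ?_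
        have h6 : algebraMap R K (r l i u) ^ q * e' i * algebraMap R K (e k) =
            algebraMap R K (r l i u) ^ q * (algebraMap R K (e k) * e' i) := by ring
        rw [h6, hcarK]
        ring
      have h7 : (∑ i, algebraMap R K (r l i u) ^ q * e' i) * algebraMap R K t =
          ∑ k, algebraMap R K (c k) ^ q *
            ((∑ i, algebraMap R K (r l i u) ^ q * e' i) * algebraMap R K (e k)) := by
        conv_lhs => rw [hc, map_sum, Finset.mul_sum]
        refine Finset.sum_congr rfl fun k _ => ?_
        rw [map_mul, map_pow]; ring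
      rw [h7, map_sum]
      refine Submodule.sum_mem _ fun k _ => ?_
      rw [← hφK, hcarK, h3, ← map_mul, Submodule.mem_one]
      exact ⟨_, rfl⟩
    have h8 : h = ∑ j, ∑ u, (y j u ^ q * b' j) •
        algebraMap K L (∑ i, algebraMap R K (r j i u) ^ q * e' i) := by
      conv_lhs => rw [hexp h, Finset.sum_comm]
      refine Finset.sum_congr rfl fun j _ => ?_
      have h9 : ∀ i, φL (h * (algebraMap K L (algebraMap R K (e i)) *
          algebraMap S L (b j))) ^ q =
          ∑ u, algebraMap K L (algebraMap R K (r j i u)) ^ q * algebraMap S L (y j u) ^ q := by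
        intro i
        rw [← hs, h1, map_sum, sum_pow_q hq haddL]
        refine Finset.sum_congr rfl fun u _ => ?_
        rw [Algebra.smul_def, map_mul, hRSL, mul_pow]
      simp only [h9, Finset.sum_mul]
      rw [Finset.sum_comm]
      refine Finset.sum_congr rfl fun u _ => ?_
      rw [Algebra.smul_def, map_sum, Finset.mul_sum]
      refine Finset.sum_congr rfl fun i _ => ?_
      rw [map_mul, map_pow, map_mul, map_pow]
      ring
    rw [h8]
    exact Submodule.sum_mem _ fun j _ => Submodule.sum_mem _ fun u _ =>
      Submodule.smul_mem _ _ (mem_extS_of_mem (hz j u))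
  · rw [extS, Submodule.span_le]
    rintro _ ⟨h, hh, rfl⟩ s
    obtain ⟨c, hc⟩ := hS s
    have h1 : algebraMap K L h * algebraMap S L s =
        ∑ i, ∑ j, algebraMap S L (c i j) ^ q *
          (algebraMap K L (h * algebraMap R K (e i)) * algebraMap S L (b' j₀ * b j)) := by
      conv_lhs => rw [hc, map_sum, Finset.mul_sum]
      refine Finset.sum_congr rfl fun i _ => ?_
      rw [map_sum, Finset.mul_sum]
      refine Finset.sum_congr rfl fun j _ => ?_
      rw [hj₀, one_mul, map_mul, map_mul, map_mul, map_pow, hRSL]
      ring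
    rw [h1, map_sum]
    refine Submodule.sum_mem _ fun i _ => ?_
    rw [map_sum]
    refine Submodule.sum_mem _ fun j _ => ?_
    rw [← hφL, hcarL, hbL]
    split_ifs with hj
    · obtain ⟨r, hr⟩ := Submodule.mem_one.1 (hh (e i))
      rw [← hφK] at hr
      rw [← hr, ← hRSL, ← map_mul, Submodule.mem_one]
      exact ⟨_, rfl⟩
    · rw [mul_zero]
      exact zero_mem _

end

end WFT12
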