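import Mathlib

/-! a nonzero functional on a finite torsion-free algebra -/

namespace WFT12

theorem exists_functional (A T : Type*) [CommRing A] [IsDomain A] [CommRing T] [IsDomain T]
    [Algebra A T] [Module.Finite A T] (hinj : Function.Injective (algebraMap A T)) :
    ∃ lam : T →ₗ[A] A, lam ≠ 0 := by
  classical
  let K := FractionRing A
  let L := FractionRing T
  have hinjL : Function.Injective (algebraMap A L) := by
    rw [IsScalarTower.algebraMap_eq A T L]
    exact (IsFractionRing.injective T L).comp hinj
  have : FaithfulSMul A L := (faithfulSMul_iff_algebraMap_injective A L).2 hinjL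
  let _ : Algebra K L := FractionRing.liftAlgebra A L
  have : IsScalarTower A K L := FractionRing.isScalarTower_liftAlgebra A L
  obtain ⟨f, hf⟩ : ∃ f : Module.Dual K L, f 1 ≠ 0 := by
    by_contra hcon
    push Not at hcon
    exact one_ne_zero ((Module.forall_dual_apply_eq_zero_iff K (1 : L)).1 hcon)
  obtain ⟨s, hs⟩ := (Module.Finite.fg_top : (⊤ : Submodule A T).FG)
  obtain ⟨b, hb⟩ := IsLocalization.exist_integer_multiples_of_finset (nonZeroDivisors A)
    (s.image fun t => f (algebraMap T L t))
  have hbK : algebraMap A K b ≠ 0 := by simp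
  have hall : ∀ t : T, ∃ a : A, algebraMap A K a = algebraMap A K b * f (algebraMap T L t) := by
    intro t
    have ht : t ∈ Submodule.span A (s : Set T) := by rw [hs]; trivial
    refine Submodule.span_induction (p := fun t _ => ∃ a : A, algebraMap A K a =
      algebraMap A K b * f (algebraMap T L t)) ?_ ?_ ?_ ?_ ht
    · intro x hx
      obtain ⟨a, ha⟩ := hb _ (Finset.mem_image_of_mem _ hx)
      exact ⟨a, by rw [ha, Algebra.smul_def]⟩
    · exact ⟨0, by simp⟩
    · rintro x y _ _ ⟨a, ha⟩ ⟨c, hc⟩
      exact ⟨a + c, by rw [map_add, ha, hc, map_add, map_add, mul_add]⟩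
    · rintro r x _ ⟨a, ha⟩
      refine ⟨r * a, ?_⟩
      have h1 : algebraMap T L (r • x) = algebraMap A K r • algebraMap T L x := by
        rw [algebraMap_smul, Algebra.smul_def, map_mul, ← IsScalarTower.algebraMap_apply A T L,
          Algebra.smul_def]
      rw [map_mul, ha, h1, map_smul, smul_eq_mul]; ring
  choose g hg using hall
  have hinjK := IsFractionRing.injective A K
  refine ⟨{ toFun := g, map_add' := ?_, map_smul' := ?_ }, ?_⟩
  · intro x y
    apply hinjK
    rw [map_add, hg, hg, hg, map_add, map_add, mul_add]
  · intro r x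
    apply hinjK
    have h1 : algebraMap T L (r • x) = algebraMap A K r • algebraMap T L x := by
      rw [algebraMap_smul, Algebra.smul_def, map_mul, ← IsScalarTower.algebraMap_apply A T L,
        Algebra.smul_def]
    rw [RingHom.id_apply, smul_eq_mul, map_mul, hg, hg, h1, map_smul, smul_eq_mul]; ring
  · intro h
    have h1 : g 1 = 0 := LinearMap.congr_fun h 1
    have h2 := hg 1
    rw [h1, map_zero, map_one] at h2
    exact (mul_ne_zero hbK hf) h2.symm

end WFT12
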