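import Pool.Agent.Lib_helper35.SFR.ExtAdic

/-!
The completion of `R` is a normal domain if the completion of a faithfully flat `R₁` with
`m R₁ = m₁` is.
-/

namespace WFT12

open IsLocalRing H35.SFR

section

variable {R T : Type*} [CommRing R] [IsLocalRing R] [IsNoetherianRing R] [CommRing T]
  [IsLocalRing T]

/-- the induced map on completions -/
theorem exists_lift (κ : R →+* T) [IsAdicComplete (maximalIdeal T) T]
    (hκ : ∀ (n : ℕ) (r : R), r ∈ maximalIdeal R ^ n → κ r ∈ maximalIdeal T ^ n) :
    ∃ l : AdicCompletion (maximalIdeal R) R →+* T,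
      (∀ r, l (algebraMap R _ r) = κ r) ∧
      ∀ (n : ℕ) (s : AdicCompletion (maximalIdeal R) R) (r : R),
        s - algebraMap R _ r ∈ maximalIdeal (AdicCompletion (maximalIdeal R) R) ^ n →
        l s - κ r ∈ maximalIdeal T ^ n := by
  let f : (n : ℕ) → AdicCompletion (maximalIdeal R) R →+* T ⧸ maximalIdeal T ^ n := fun n =>
    (Ideal.quotientMap (maximalIdeal T ^ n) κ (fun r hr => hκ n r hr)).comp
      (AdicCompletion.evalₐ (maximalIdeal R) n : _ →+* _)
  have hfr : ∀ n (s : AdicCompletion (maximalIdeal R) R) (r : R),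
      s - algebraMap R _ r ∈ maximalIdeal (AdicCompletion (maximalIdeal R) R) ^ n →
      f n s = Ideal.Quotient.mk _ (κ r) := by
    intro n s r hsr
    rw [mem_pow_iff, map_sub, sub_eq_zero, AlgHom.commutes] at hsr
    show (Ideal.quotientMap (maximalIdeal T ^ n) κ (fun r hr => hκ n r hr))
      (AdicCompletion.evalₐ (maximalIdeal R) n s) = _
    rw [hsr]
    rfl
  have hf : ∀ {m n : ℕ} (hle : m ≤ n),
      (Ideal.Quotient.factorPow (maximalIdeal T) hle).comp (f n) = f m := by
    intro m n hle
    ext s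
    obtain ⟨r, hr⟩ := (isCompl_adicCompletion (R := R)).dense n s
    rw [RingHom.comp_apply, hfr n s r hr, hfr m s r (Ideal.pow_le_pow_right hle hr)]
    rfl
  refine ⟨IsAdicComplete.liftRingHom (maximalIdeal T) f hf, ?_, ?_⟩
  · intro r
    apply haus_eq (maximalIdeal T)
    intro n
    rw [← Ideal.Quotient.eq, IsAdicComplete.mk_liftRingHom]
    exact hfr n _ r (by rw [sub_self]; exact zero_mem _)
  · intro n s r hsr
    rw [← Ideal.Quotient.eq, IsAdicComplete.mk_liftRingHom]
    exact hfr n s r hsr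

/-- ideals of Noetherian local rings are closed -/
theorem dvd_of_forall_mem {S : Type*} [CommRing S] [IsLocalRing S] [IsNoetherianRing S] {a b : S}
    (h : ∀ n, a ∈ Ideal.span {b} ⊔ maximalIdeal S ^ n) : b ∣ a := by
  rw [← Ideal.mem_span_singleton]
  by_cases htop : Ideal.span {b} = ⊤
  · rw [htop]; trivial
  have hle : Ideal.span {b} ≤ maximalIdeal S := le_maximalIdeal htop
  have hnt : Nontrivial (S ⧸ Ideal.span {b}) := Ideal.Quotient.nontrivial_iff.2 htop
  have hloc : IsLocalRing (S ⧸ Ideal.span {b}) :=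
    IsLocalRing.of_surjective' (Ideal.Quotient.mk _) Ideal.Quotient.mk_surjective
  rw [← Ideal.Quotient.eq_zero_iff_mem]
  have h1 : Ideal.Quotient.mk (Ideal.span {b}) a ∈
      ⨅ n : ℕ, (maximalIdeal (S ⧸ Ideal.span {b})) ^ n := by
    rw [Ideal.mem_iInf]
    intro n
    have h2 := Ideal.mem_map_of_mem (Ideal.Quotient.mk (Ideal.span {b})) (h n)
    rw [Ideal.map_sup, Ideal.map_quotient_self, bot_sup_eq, Ideal.map_pow] at h2
    refine Ideal.pow_right_mono ?_ n h2
    rw [Ideal.map_le_iff_le_comap]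
    intro x hx
    rw [Ideal.mem_comap, mem_maximalIdeal, mem_nonunits_iff]
    intro hu
    obtain ⟨y, hy⟩ := hu.exists_right_inv
    obtain ⟨y, rfl⟩ := Ideal.Quotient.mk_surjective y
    rw [← map_mul, ← map_one (Ideal.Quotient.mk (Ideal.span {b})), Ideal.Quotient.eq] at hy
    have h3 : x * y ∈ maximalIdeal S := Ideal.mul_mem_right _ _ hx
    have h4 := sub_mem h3 (hle hy)
    rw [sub_sub_cancel] at h4
    exact (mem_maximalIdeal _).1 h4 isUnit_one
  rw [Ideal.iInf_pow_eq_bot_of_isLocalRing _ (maximalIdeal.isMaximal _).ne_top] at h1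
  exact h1

/-- normality of the completion -/
theorem normal_of_lift [IsNoetherianRing (AdicCompletion (maximalIdeal R) R)]
    [IsDomain T] [IsIntegrallyClosed T] [IsAdicComplete (maximalIdeal T) T] (κ : R →+* T)
    (hκ : ∀ (n : ℕ) (r : R), r ∈ maximalIdeal R ^ n → κ r ∈ maximalIdeal T ^ n)
    (hκ' : ∀ (n : ℕ) (r : R), κ r ∈ maximalIdeal T ^ n → r ∈ maximalIdeal R ^ n)
    (hdvd : ∀ (n : ℕ) (a b : R), κ a ∈ Ideal.span {κ b} ⊔ maximalIdeal T ^ n →
      a ∈ Ideal.span {b} ⊔ maximalIdeal R ^ n) :
    ∃ _ : IsDomain (AdicCompletion (maximalIdeal R) R),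
      IsIntegrallyClosed (AdicCompletion (maximalIdeal R) R) := by
  have hC := isCompl_adicCompletion (R := R)
  have := hC.complete
  obtain ⟨l, hl, hl'⟩ := exists_lift κ hκ
  have hinj : Function.Injective l := by
    rw [injective_iff_map_eq_zero]
    intro s hs
    apply haus (maximalIdeal (AdicCompletion (maximalIdeal R) R))
    intro n
    obtain ⟨r, hr⟩ := hC.dense n s
    have h1 := hl' n s r hr
    rw [hs, zero_sub, neg_mem_iff] at h1
    have h2 := hC.map n r (hκ' n r h1)
    have h3 := add_mem hr h2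
    rwa [sub_add_cancel] at h3
  have hdom : IsDomain (AdicCompletion (maximalIdeal R) R) := hinj.isDomain l
  refine ⟨hdom, ?_⟩
  -- divisibility is reflected
  have hdvd' : ∀ a b : AdicCompletion (maximalIdeal R) R, l b ∣ l a → b ∣ a := by
    rintro a b ⟨t, ht⟩
    apply dvd_of_forall_mem
    intro n
    obtain ⟨a', ha'⟩ := hC.dense n a
    obtain ⟨b', hb'⟩ := hC.dense n b
    have h1 := hl' n a a' ha'
    have h2 := hl' n b b' hb'
    have h3 : κ a' ∈ Ideal.span {κ b'} ⊔ maximalIdeal T ^ n := by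
      have h4 : κ a' = κ b' * t + ((l b - κ b') * t - (l a - κ a')) := by rw [ht]; ring
      rw [h4]
      refine add_mem (Ideal.mem_sup_left (Ideal.mul_mem_right _ _ (Ideal.mem_span_singleton_self _)))
        (Ideal.mem_sup_right (sub_mem (Ideal.mul_mem_right _ _ h2) h1))
    obtain ⟨u, hu, v, hv, huv⟩ := Submodule.mem_sup.1 (hdvd n a' b' h3)
    obtain ⟨c, rfl⟩ := Ideal.mem_span_singleton.1 hu
    have h5 : a = b * algebraMap R _ c + ((a - algebraMap R _ a') + algebraMap R _ v -
        (b - algebraMap R _ b') * algebraMap R _ c) := by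
      rw [← huv, map_add, map_mul]; ring
    rw [h5]
    refine add_mem (Ideal.mem_sup_left (Ideal.mul_mem_right _ _ (Ideal.mem_span_singleton_self _)))
      (Ideal.mem_sup_right (sub_mem (add_mem ha' (hC.map n v hv)) (Ideal.mul_mem_right _ _ hb')))
  set S := AdicCompletion (maximalIdeal R) R with hS
  rw [isIntegrallyClosed_iff (FractionRing S)]
  intro x hx
  obtain ⟨a, b, hb, rfl⟩ := IsFractionRing.div_surjective (A := S) x
  have hb0 : b ≠ 0 := nonZeroDivisors.ne_zero hb
  let g : FractionRing S →+* FractionRing T := IsFractionRing.map (K := FractionRing S)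
    (L := FractionRing T) hinj
  have hg : ∀ s : S, g (algebraMap S (FractionRing S) s) = algebraMap T (FractionRing T) (l s) :=
    fun s => IsLocalization.map_eq _ s
  have hint : IsIntegral T (g (algebraMap S (FractionRing S) a / algebraMap S (FractionRing S) b)) := by
    refine IsIntegral.map_of_comp_eq l g ?_ hx
    ext s
    rw [RingHom.comp_apply, RingHom.comp_apply, hg]
  obtain ⟨t, ht⟩ := IsIntegrallyClosed.isIntegral_iff.1 hint
  have hlb : l b ≠ 0 := fun h => hb0 (hinj (by rw [h, map_zero]))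
  have hlbK : algebraMap T (FractionRing T) (l b) ≠ 0 := by
    intro h
    exact hlb (IsFractionRing.injective T (FractionRing T) (by rw [h, map_zero]))
  have hdv : l b ∣ l a := by
    refine ⟨t, IsFractionRing.injective T (FractionRing T) ?_⟩
    rw [map_mul, ht, map_div₀, hg, hg]
    field_simp
  obtain ⟨c, hc⟩ := hdvd' a b hdv
  refine ⟨c, ?_⟩
  have hbK : algebraMap S (FractionRing S) b ≠ 0 := by
    intro h
    exact hb0 (IsFractionRing.injective S (FractionRing S) (by rw [h, map_zero]))
  rw [hc, map_mul, mul_div_cancel_left₀ _ hbK]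

end

/-- The completion of `R` is a normal domain if a completion of `R₁` is, `R → R₁` faithfully flat
with `m R₁ = m₁`. -/
theorem normal_compl {R R₁ T : Type*} [CommRing R] [IsLocalRing R] [IsNoetherianRing R]
    [CommRing R₁] [IsLocalRing R₁] [IsNoetherianRing (AdicCompletion (maximalIdeal R) R)]
    [Algebra R R₁] [Module.FaithfullyFlat R R₁]
    (hm : (maximalIdeal R).map (algebraMap R R₁) = maximalIdeal R₁)
    [CommRing T] [IsLocalRing T] [IsDomain T] [IsIntegrallyClosed T] {κ₁ : R₁ →+* T}
    (h₁ : IsCompl κ₁) :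
    ∃ _ : IsDomain (AdicCompletion (maximalIdeal R) R),
      IsIntegrallyClosed (AdicCompletion (maximalIdeal R) R) := by
  have := h₁.complete
  have hmn : ∀ n, (maximalIdeal R ^ n).map (algebraMap R R₁) = maximalIdeal R₁ ^ n := by
    intro n; rw [Ideal.map_pow, hm]
  refine normal_of_lift (κ₁.comp (algebraMap R R₁)) ?_ ?_ ?_
  · intro n r hr
    apply h₁.map
    rw [← hmn]
    exact Ideal.mem_map_of_mem _ hr
  · intro n r hr
    have h2 := h₁.comap n _ hr
    rw [← hmn, ← Ideal.mem_comap, Ideal.comap_map_eq_self_of_faithfullyFlat] at h2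
    exact h2
  · intro n a b hab
    obtain ⟨u, hu, v, hv, huv⟩ := Submodule.mem_sup.1 hab
    obtain ⟨t, rfl⟩ := Ideal.mem_span_singleton.1 hu
    obtain ⟨c, hc⟩ := h₁.dense n t
    have h2 : κ₁ (algebraMap R R₁ a - algebraMap R R₁ b * c) ∈ maximalIdeal T ^ n := by
      have h3 : κ₁ (algebraMap R R₁ a - algebraMap R R₁ b * c) =
          v + (κ₁ (algebraMap R R₁ b)) * (t - κ₁ c) := by
        rw [map_sub, map_mul]
        have := huv
        rw [RingHom.comp_apply, RingHom.comp_apply] at this
        rw [← this]; ring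
      rw [h3]
      exact add_mem hv (Ideal.mul_mem_left _ _ hc)
    have h4 := h₁.comap n _ h2
    have h5 : algebraMap R R₁ a ∈ (Ideal.span {b} ⊔ maximalIdeal R ^ n).map (algebraMap R R₁) := by
      rw [Ideal.map_sup, hmn, Ideal.map_span, Set.image_singleton]
      have h6 : algebraMap R R₁ a = algebraMap R R₁ b * c +
          (algebraMap R R₁ a - algebraMap R R₁ b * c) := by ring
      rw [h6]
      exact add_mem (Ideal.mem_sup_left (Ideal.mul_mem_right _ _ (Ideal.mem_span_singleton_self _)))
        (Ideal.mem_sup_right h4)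
    rw [← Ideal.mem_comap, Ideal.comap_map_eq_self_of_faithfullyFlat] at h5
    exact h5

end WFT12
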