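import Pool.Agent.Lib_helper12.WFT.Pair
import Pool.Agent.Lib_helper12.WFT.NormalCompl
import Pool.Agent.Lib_helper12.WFT.Functional
import Pool.Agent.Lib_helper92.RX.Basic
import Pool.Agent.Lib_helper84.Cub.WFTStmts
import Pool.Agent.WFT.FinalDefs

/-!
The canonical class: from the completion of `R(x)` back to `R`.
-/

namespace WFT12

open Submodule IsLocalRing Pool.Agent.WFT Pool.Agent.RX

universe u

/-- generators of level `p ^ e` -/
theorem gens_of_ffin (R : Type*) [CommRing R] (p : ℕ) [hp : Fact p.Prime] [CharP R p]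
    (h : (frobenius R p).Finite) (e : ℕ) :
    ∃ (ι : Type) (_ : Fintype ι) (g : ι → R), ∀ b : R, ∃ a : ι → R,
      b = ∑ i, a i ^ p ^ e * g i := by
  obtain ⟨n, g, hg⟩ := (frobenius_finite_iff R p).1 h
  induction e with
  | zero => exact ⟨Unit, inferInstance, fun _ => 1, fun b => ⟨fun _ => b, by simp⟩⟩
  | succ e ih =>
    obtain ⟨ι, _, g', hg'⟩ := ih
    refine ⟨ι × Fin n, inferInstance, fun i => g i.2 ^ p ^ e * g' i.1, fun b => ?_⟩
    obtain ⟨a, ha⟩ := hg' b
    choose c hc using fun i => hg (a i)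
    refine ⟨fun i => c i.1 i.2, ?_⟩
    rw [Fintype.sum_prod_type]
    conv_lhs => rw [ha]
    refine Finset.sum_congr rfl fun i _ => ?_
    conv_lhs => rw [hc i]
    rw [sum_pow_char_pow, Finset.sum_mul]
    refine Finset.sum_congr rfl fun j _ => ?_
    rw [mul_pow, ← pow_mul, ← pow_succ']
    ring

theorem isGen_PS (p : ℕ) [Fact p.Prime] (d : ℕ) (k : Type u) [Field k] [CharP k p]
    (hk : FFin k p) (e : ℕ) : ∃ Φ : PS d k →+ PS d k, IsGen (p ^ e) Φ := by
  obtain ⟨G, _⟩ := stmtPhi.{u} p d k hk e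
  letI := G.fin
  obtain ⟨h1, n, b, b', h2⟩ := Pool.Agent.Cub.FrobDual.of_fintype G.cartier G.b G.b' G.dual
  exact ⟨G.Φ, h1, n, b, b', h2⟩

theorem isoHom_of_isDual {A T : Type*} [CommRing A] [CommRing T] [Algebra A T] {J : Ideal T}
    (h : IsDual A T J) : IsoHom A J := by
  obtain ⟨ε, hε⟩ := h
  exact ⟨ε, fun t s w => hε t w s⟩

/-- a dual ideal gives a dual submodule of the fraction field -/
theorem isDual_toK {A T L : Type*} [CommRing A] [CommRing T] [IsDomain T] [Algebra A T] [Field L]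
    [Algebra T L] [IsFractionRing T L] {J : Ideal T} (h : IsDual A T J) :
    IsDual A T (toK L J) := by
  obtain ⟨ε, hε⟩ := h
  let f : J ≃ₗ[T] (toK L J) :=
    Submodule.equivMapOfInjective (Algebra.linearMap T L) (IsFractionRing.injective T L) J
  refine ⟨f.symm.toAddEquiv.trans ε, fun t w x => ?_⟩
  show ε (f.symm (t • w)) x = ε (f.symm w) (t * x)
  rw [map_smul, hε]

theorem isLocalHom_compl (R : Type*) [CommRing R] [IsLocalRing R] [IsNoetherianRing R] :
    IsLocalHom (algebraMap R (AdicCompletion (maximalIdeal R) R)) := by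
  refine ⟨fun r hr => ?_⟩
  by_contra hu
  have h1 : r ∈ maximalIdeal R ^ 1 := by rw [pow_one]; exact (mem_maximalIdeal r).2 hu
  have h2 := (H35.SFR.isCompl_adicCompletion (R := R)).map 1 r h1
  rw [pow_one] at h2
  exact (mem_maximalIdeal _).1 h2 hr

/-- **(D)**, for a general ring `R₁` in place of `R(x)` and with the auxiliary facts as
hypotheses. -/
theorem canon_core (p : ℕ) [Fact p.Prime] (R : Type u) [CommRing R] [IsDomain R]
    [IsNoetherianRing R] [IsLocalRing R] [CharP R p] (hF : FFin R p)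
    (R₁ : Type u) [CommRing R₁] [IsDomain R₁] [IsNoetherianRing R₁] [IsLocalRing R₁] [CharP R₁ p]
    (hF₁ : FFin R₁ p) [Algebra R R₁] [Module.FaithfullyFlat R R₁]
    (hm : (maximalIdeal R).map (algebraMap R R₁) = maximalIdeal R₁) (x : R₁) (hx : IsUnit x)
    (hfrac : ∀ y : R₁, ∃ f g : Polynomial R, IsUnit (Polynomial.aeval x g) ∧
      y * Polynomial.aeval x g = Polynomial.aeval x f)
    (e : ℕ) (he : 0 < e) (φ : R →+ R) (hφ : Pool.Agent.WFT.IsCartier (p ^ e) φ) (hφ0 : φ ≠ 0)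
    (ψ : R₁ →+ R₁) (hψ : Pool.Agent.WFT.IsCartier (p ^ e) ψ)
    (hψr : ∀ r, ψ (algebraMap R R₁ r) = algebraMap R R₁ (φ r))
    (hψx : ∀ r i, ψ (algebraMap R R₁ r * x ^ i) =
      if p ^ e ∣ i then algebraMap R R₁ (φ r) * x ^ (i / p ^ e) else 0)
    [IsDomain (AdicCompletion (maximalIdeal R₁) R₁)]
    [IsIntegrallyClosed (AdicCompletion (maximalIdeal R₁) R₁)]
    (d : ℕ) (k : Type u) [Field k] [CharP k p] (hk : FFin k p)
    [Algebra (PS d k) (AdicCompletion (maximalIdeal R₁) R₁)]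
    [Module.Finite (PS d k) (AdicCompletion (maximalIdeal R₁) R₁)]
    (hinj : Function.Injective
      (algebraMap (PS d k) (AdicCompletion (maximalIdeal R₁) R₁)))
    (J : Ideal (AdicCompletion (maximalIdeal R₁) R₁)) (hJ : J ≠ ⊥)
    (hJd : IsDual (PS d k) (AdicCompletion (maximalIdeal R₁) R₁) J)
    (hJt : Tors (toK (FractionRing (AdicCompletion (maximalIdeal R₁) R₁)) J))
    (I : Ideal R) (n : ℕ) (k' : Type u) [Field k'] [CharP k' p] (hk' : FFin k' p)
    [Algebra (PS n k') (AdicCompletion (maximalIdeal R) R)]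
    [Module.Finite (PS n k') (AdicCompletion (maximalIdeal R) R)]
    (hinj' : Function.Injective (algebraMap (PS n k') (AdicCompletion (maximalIdeal R) R)))
    (hId : IsDual (PS n k') (AdicCompletion (maximalIdeal R) R)
      (I.map (algebraMap R (AdicCompletion (maximalIdeal R) R)))) :
    ∃ m : ℕ, 1 ≤ m ∧ PrinPow (IsLocalization.coeSubmodule (FractionRing R) I) m := by
  have hp := (Fact.out : p.Prime)
  set T := AdicCompletion (maximalIdeal R₁) R₁ with hT
  set S := AdicCompletion (maximalIdeal R) R with hS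
  have hq : 0 < p ^ e := pow_pos hp.pos e
  have hq1 : 0 < p ^ e - 1 := by
    have : 1 < p ^ e := Nat.one_lt_pow he.ne' hp.one_lt
    omega
  have hCT : CharP T p := Pool.Agent.CN.charP_adicCompletion R₁ p
  have hCS : CharP S p := Pool.Agent.CN.charP_adicCompletion R p
  have hNT : IsNoetherianRing T := Pool.Agent.CN.isNoetherianRing_adicCompletion R₁ p
  have hNS : IsNoetherianRing S := Pool.Agent.CN.isNoetherianRing_adicCompletion R p
  have haddR : ∀ x y : R, (x + y) ^ p ^ e = x ^ p ^ e + y ^ p ^ e :=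
    fun x y => add_pow_char_pow x y p e
  have haddX : ∀ x y : R₁, (x + y) ^ p ^ e = x ^ p ^ e + y ^ p ^ e :=
    fun x y => add_pow_char_pow x y p e
  have haddT : ∀ x y : T, (x + y) ^ p ^ e = x ^ p ^ e + y ^ p ^ e :=
    fun x y => add_pow_char_pow x y p e
  have haddS : ∀ x y : S, (x + y) ^ p ^ e = x ^ p ^ e + y ^ p ^ e :=
    fun x y => add_pow_char_pow x y p e
  have haddA : ∀ x y : PS d k, (x + y) ^ p ^ e = x ^ p ^ e + y ^ p ^ e := by
    intro x y
    apply hinj
    rw [map_add, map_pow, map_pow, map_pow, map_add, haddT]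
  have haddA' : ∀ x y : PS n k', (x + y) ^ p ^ e = x ^ p ^ e + y ^ p ^ e := by
    intro x y
    apply hinj'
    rw [map_add, map_pow, map_pow, map_pow, map_add, haddS]
  obtain ⟨ι, _, g, hg⟩ := gens_of_ffin R p hF e
  obtain ⟨ι', _, g', hg'⟩ := gens_of_ffin R₁ p hF₁ e
  obtain ⟨φT, hφT, hφTr⟩ := H35.SFR.exists_ext_adicCompletion (R := R₁) hψ
  obtain ⟨φS, hφS, hφSr⟩ := H35.SFR.exists_ext_adicCompletion (R := R) hφ
  have hcT := H35.SFR.isCompl_adicCompletion (R := R₁)
  have hcS := H35.SFR.isCompl_adicCompletion (R := R)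
  have := isLocalHom_compl R₁
  have := isLocalHom_compl R
  have hffT : Module.FaithfullyFlat R₁ T := Module.FaithfullyFlat.of_flat_of_isLocalHom
  have hffS : Module.FaithfullyFlat R S := Module.FaithfullyFlat.of_flat_of_isLocalHom
  obtain ⟨hdS, hiS⟩ := normal_compl (R := R) (R₁ := R₁) hm hcT
  obtain ⟨r₀, hr₀⟩ : ∃ r, φ r ≠ 0 := by
    by_contra hcon
    push Not at hcon
    exact hφ0 (by ext r; exact hcon r)
  have hψ0 : ψ ≠ 0 := by
    intro h
    have h1 := hψr r₀
    rw [h] at h1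
    exact hr₀ (injective_ff (R := R) (S := R₁) (by rw [map_zero]; exact h1.symm))
  have hφT0 : φT ≠ 0 := by
    intro h
    have h1 := hφTr (algebraMap R R₁ r₀)
    rw [h, hψr] at h1
    have h2 := injective_ff (R := R₁) (S := T) (a₁ := algebraMap R R₁ (φ r₀)) (a₂ := 0)
      (by rw [map_zero]; exact h1.symm)
    exact hr₀ (injective_ff (R := R) (S := R₁) (by rw [map_zero]; exact h2))
  have hφS0 : φS ≠ 0 := by
    intro h
    have h1 := hφSr r₀
    rw [h] at h1
    exact hr₀ (injective_ff (R := R) (S := S) (by rw [map_zero]; exact h1.symm))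
  -- `T`
  obtain ⟨Φ, hΦ⟩ := isGen_PS p d k hk e
  have h1 : Tors (DD (K := FractionRing T) (p ^ e) hq φT hφT) :=
    tors_of_CEq' (CEq_DD (K := FractionRing T) hinj hq haddA hΦ hφT hφT0 hJ
      (isoHom_of_isDual hJd)) hJt
  have h2 : Tors (DD (K := FractionRing R₁) (p ^ e) hq ψ hψ) :=
    (tors_DD_compl_iff hcT hq haddX haddT hψ hψ0 hφT g' hg' hφTr).1 h1
  have h3 : Tors (DD (K := FractionRing R) (p ^ e) hq φ hφ) :=
    (tors_DD_Ru_iff hq haddR haddX hφ hφ0 hψ g hg x hx hfrac hψx).1 h2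
  have h4 : Tors (DD (K := FractionRing S) (p ^ e) hq φS hφS) :=
    (tors_DD_compl_iff hcS hq haddR haddS hφ hφ0 hφS g hg hφSr).2 h3
  obtain ⟨Φ', hΦ'⟩ := isGen_PS p n k' hk' e
  -- the ideal is nonzero
  have hIS0 : I.map (algebraMap R S) ≠ ⊥ := by
    intro h0
    obtain ⟨lam, hlam⟩ := exists_functional (PS n k') S hinj'
    obtain ⟨ε, hε⟩ := hId
    apply hlam
    have hz : ∀ w : (I.map (algebraMap R S)), w = 0 := by
      rintro ⟨w, hw⟩
      rw [h0] at hw
      exact Subtype.ext ((Submodule.mem_bot S).1 hw)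
    have h5 := ε.apply_symm_apply lam
    rw [hz (ε.symm lam), map_zero] at h5
    exact h5.symm
  have hI0 : I ≠ ⊥ := by
    rintro rfl
    exact hIS0 (Ideal.map_bot)
  have h5 : Tors (toK (FractionRing S) (I.map (algebraMap R S))) :=
    tors_of_CEq hq1 (CEq_DD (K := FractionRing S) hinj' hq haddA' hΦ' hφS hφS0 hIS0
      (isoHom_of_isDual hId)) h4
  have h6 : Tors (toK (FractionRing R) I) := (tors_ideal_iff hI0).1 h5
  obtain ⟨m, hm, h7⟩ := h6
  exact ⟨m, hm, (prinPow_iff (toK_fg I) m).2 h7⟩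

end WFT12
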