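import Pool.Agent.Lib_helper12.WFT.ExtK

/-!
Generators of the module of Cartier maps on a ring `A`, and the duality
`q`-Cartier maps `T → A`  =  `Φ ∘ (A-linear maps T → A)`.
-/

namespace WFT12

open Finset

/-- `Φ` generates the Cartier maps of level `q` on `A`: there is a finite dual family. -/
def IsGen (q : ℕ) {A : Type*} [CommRing A] (Φ : A →+ A) : Prop :=
  IsCar q Φ ∧ ∃ (n : ℕ) (e e' : Fin n → A), ∀ h : A, h = ∑ i, Φ (h * e' i) ^ q * e i

variable {A : Type*} [CommRing A]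

theorem IsGen.nondeg {q : ℕ} (hq : 0 < q) {Φ : A →+ A} (h : IsGen q Φ) {x : A}
    (hx : ∀ c, Φ (c * x) = 0) : x = 0 := by
  obtain ⟨hc, n, e, e', he⟩ := h
  rw [he x]
  refine Finset.sum_eq_zero fun i _ => ?_
  rw [mul_comm x, hx, zero_pow hq.ne', zero_mul]

theorem gen_nondeg {q : ℕ} (hq : 0 < q) {Φ : A →+ A} {ι : Type*} [Fintype ι]
    {e e' : ι → A} (he : ∀ h : A, h = ∑ i, Φ (h * e' i) ^ q * e i) {x : A}
    (hx : ∀ c, Φ (c * x) = 0) : x = 0 := by
  rw [he x]
  refine Finset.sum_eq_zero fun i _ => ?_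
  rw [mul_comm x, hx, zero_pow hq.ne', zero_mul]

theorem gen_dual {q : ℕ} (hq : 0 < q) {Φ : A →+ A} (hc : IsCar q Φ) {ι : Type*} [Fintype ι]
    {e e' : ι → A} (he : ∀ h : A, h = ∑ i, Φ (h * e' i) ^ q * e i) (h : A) :
    h = ∑ i, Φ (h * e i) ^ q * e' i := by
  rw [eq_comm, ← sub_eq_zero]
  refine gen_nondeg hq he fun c => ?_
  rw [mul_sub, map_sub, sub_eq_zero, Finset.mul_sum, map_sum]
  conv_rhs => rw [he c, Finset.sum_mul, map_sum]
  refine Finset.sum_congr rfl fun i _ => ?_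
  have h1 : c * (Φ (h * e i) ^ q * e' i) = Φ (h * e i) ^ q * (c * e' i) := by ring
  have h2 : Φ (c * e' i) ^ q * e i * h = Φ (c * e' i) ^ q * (h * e i) := by ring
  rw [h1, h2, hc, hc, mul_comm]

theorem gen_dvd [IsDomain A] {q : ℕ} (hq : 0 < q) {Φ : A →+ A} (h : IsGen q Φ) {a b : A}
    (ha : a ≠ 0) (hab : ∀ c, a ∣ Φ (a ^ (q - 1) * (c * b))) : a ∣ b := by
  obtain ⟨hc, n, e, e', he⟩ := h
  choose z hz using hab
  have h1 := he (a ^ (q - 1) * b)
  have h2 : ∀ i, Φ (a ^ (q - 1) * b * e' i) = a * z (e' i) := by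
    intro i
    rw [← hz]
    congr 1
    ring
  simp only [h2, mul_pow] at h1
  have h3 : a ^ (q - 1) * b = a ^ (q - 1) * (a * ∑ i, z (e' i) ^ q * e i) := by
    rw [h1, Finset.mul_sum, Finset.mul_sum]
    refine Finset.sum_congr rfl fun i _ => ?_
    obtain ⟨m, rfl⟩ : ∃ m, q = m + 1 := ⟨q - 1, by omega⟩
    simp only [Nat.add_sub_cancel]
    rw [pow_succ a m]
    ring
  have h4 := mul_left_cancel₀ (pow_ne_zero _ ha) h3
  exact ⟨_, h4⟩

theorem sum_pow_q {B : Type*} [CommRing B] {q : ℕ} (hq : 0 < q)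
    (hadd : ∀ x y : B, (x + y) ^ q = x ^ q + y ^ q) {ι : Type*} (s : Finset ι) (f : ι → B) :
    (∑ i ∈ s, f i) ^ q = ∑ i ∈ s, f i ^ q := by
  classical
  induction s using Finset.induction_on with
  | empty => simp [zero_pow hq.ne']
  | insert i s hi ih => rw [Finset.sum_insert hi, Finset.sum_insert hi, hadd, ih]

/-- Every Cartier map `T → A` is `Φ ∘ μ` with `μ` linear. -/
theorem gen_lift {T : Type*} [CommRing T] [Algebra A T] {q : ℕ} (hq : 0 < q)
    (hadd : ∀ x y : A, (x + y) ^ q = x ^ q + y ^ q) {Φ : A →+ A} (h : IsGen q Φ)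
    (ψ : T →+ A) (hψ : ∀ (a : A) (t : T), ψ (algebraMap A T a ^ q * t) = a * ψ t) :
    ∃ μ : T →ₗ[A] A, ∀ t, ψ t = Φ (μ t) := by
  obtain ⟨hc, n, e, e', he⟩ := h
  have hd := gen_dual hq hc he
  have key : ∀ (a : A) (t : T),
      ∑ i, ψ (algebraMap A T (e' i) * (a • t)) ^ q * e i =
        a * ∑ i, ψ (algebraMap A T (e' i) * t) ^ q * e i := by
    intro a t
    have h1 : ∀ i, ψ (algebraMap A T (e' i) * (a • t)) =
        ∑ j, Φ (e' i * a * e j) * ψ (algebraMap A T (e' j) * t) := by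
      intro i
      have : algebraMap A T (e' i) * (a • t) =
          ∑ j, algebraMap A T (Φ (e' i * a * e j)) ^ q * (algebraMap A T (e' j) * t) := by
        rw [Algebra.smul_def, ← mul_assoc, ← map_mul]
        conv_lhs => rw [hd (e' i * a), map_sum, Finset.sum_mul]
        refine Finset.sum_congr rfl fun j _ => ?_
        rw [map_mul, map_pow, mul_assoc]
      rw [this, map_sum]
      refine Finset.sum_congr rfl fun j _ => ?_
      rw [hψ]
    simp only [h1, sum_pow_q hq hadd, mul_pow, Finset.sum_mul]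
    rw [Finset.sum_comm, Finset.mul_sum]
    refine Finset.sum_congr rfl fun j _ => ?_
    have h2 := he (a * e j)
    calc ∑ i, Φ (e' i * a * e j) ^ q * ψ (algebraMap A T (e' j) * t) ^ q * e i
        = (∑ i, Φ (a * e j * e' i) ^ q * e i) * ψ (algebraMap A T (e' j) * t) ^ q := by
          rw [Finset.sum_mul]
          refine Finset.sum_congr rfl fun i _ => ?_
          have : e' i * a * e j = a * e j * e' i := by ring
          rw [this]; ring
      _ = a * (ψ (algebraMap A T (e' j) * t) ^ q * e j) := by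
          rw [← h2]; ring
  refine ⟨{ toFun := fun t => ∑ i, ψ (algebraMap A T (e' i) * t) ^ q * e i
            map_add' := ?_
            map_smul' := ?_ }, ?_⟩
  · intro x y
    rw [← Finset.sum_add_distrib]
    refine Finset.sum_congr rfl fun i _ => ?_
    rw [mul_add, map_add, hadd, add_mul]
  · intro a t
    exact key a t
  · intro t
    show ψ t = Φ (∑ i, ψ (algebraMap A T (e' i) * t) ^ q * e i)
    rw [map_sum]
    have h1 : ∀ i, Φ (ψ (algebraMap A T (e' i) * t) ^ q * e i) =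
        ψ (algebraMap A T (Φ (1 * e i)) ^ q * (algebraMap A T (e' i) * t)) := by
      intro i
      rw [hc, hψ, one_mul, mul_comm]
    simp only [h1]
    rw [← map_sum]
    congr 1
    conv_lhs => rw [← one_mul t, ← map_one (algebraMap A T), hd 1, map_sum, Finset.sum_mul]
    refine Finset.sum_congr rfl fun i _ => ?_
    rw [map_mul, map_pow, mul_assoc]

end WFT12
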