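import Mathlib

/-!
Divisor classes of fractional ideals, elementary form.

`K` is a field, an algebra over the ring `T` (in all applications the fraction field of `T`).
Fractional ideals are `T`-submodules of `K`; `1 / X` is the inverse fractional ideal.
`CEq X Y`: the divisorial hulls of `X` and `Y` differ by a nonzero factor of `K`.
-/

namespace WFT12

open Submodule

variable {T K : Type*} [CommRing T] [Field K] [Algebra T K]

/-- `X` and `Y` have the same divisor class: `1 / X` and `1 / Y` differ by a factor. -/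
def CEq (X Y : Submodule T K) : Prop :=
  ∃ g : K, g ≠ 0 ∧ ∀ x : K, x ∈ (1 / X : Submodule T K) ↔ g * x ∈ (1 / Y : Submodule T K)

theorem CEq.refl (X : Submodule T K) : CEq X X := ⟨1, one_ne_zero, fun x => by simp⟩

theorem CEq.symm {X Y : Submodule T K} (h : CEq X Y) : CEq Y X := by
  obtain ⟨g, hg, h⟩ := h
  refine ⟨g⁻¹, inv_ne_zero hg, fun x => ?_⟩
  rw [h, ← mul_assoc, mul_inv_cancel₀ hg, one_mul]

theorem CEq.trans {X Y Z : Submodule T K} (h : CEq X Y) (h' : CEq Y Z) : CEq X Z := by
  obtain ⟨g, hg, h⟩ := h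
  obtain ⟨g', hg', h'⟩ := h'
  refine ⟨g' * g, mul_ne_zero hg' hg, fun x => ?_⟩
  rw [h, h', ← mul_assoc]

theorem mem_one_div_mul {X Y : Submodule T K} {x : K} :
    x ∈ (1 / (X * Y) : Submodule T K) ↔ ∀ y ∈ Y, x * y ∈ (1 / X : Submodule T K) := by
  rw [Submodule.mem_div_iff_forall_mul_mem]
  constructor
  · intro h y hy
    rw [Submodule.mem_div_iff_forall_mul_mem]
    intro z hz
    have := h (z * y) (Submodule.mul_mem_mul hz hy)
    rwa [mul_assoc, mul_comm y z]
  · intro h z hz
    refine Submodule.mul_induction_on hz ?_ ?_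
    · intro m hm n hn
      have := h n hn
      rw [Submodule.mem_div_iff_forall_mul_mem] at this
      have := this m hm
      rwa [mul_assoc, mul_comm n m] at this
    · intro a b ha hb
      rw [mul_add]
      exact add_mem ha hb

theorem CEq.mul_right {X Y : Submodule T K} (h : CEq X Y) (Z : Submodule T K) :
    CEq (X * Z) (Y * Z) := by
  obtain ⟨g, hg, h⟩ := h
  refine ⟨g, hg, fun x => ?_⟩
  rw [mem_one_div_mul, mem_one_div_mul]
  refine forall_congr' fun y => forall_congr' fun _ => ?_
  rw [h, mul_assoc]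

theorem CEq.mul {X Y Z W : Submodule T K} (h : CEq X Y) (h' : CEq Z W) :
    CEq (X * Z) (Y * W) := by
  refine (h.mul_right Z).trans ?_
  rw [mul_comm Y Z, mul_comm Y W]
  exact h'.mul_right Y

theorem CEq.pow {X Y : Submodule T K} (h : CEq X Y) (n : ℕ) : CEq (X ^ n) (Y ^ n) := by
  induction n with
  | zero => simpa using CEq.refl _
  | succ n ih => rw [pow_succ, pow_succ]; exact ih.mul h

theorem CEq.of_one_div_eq {X Y : Submodule T K} (h : (1 / X : Submodule T K) = 1 / Y) :
    CEq X Y := ⟨1, one_ne_zero, fun x => by rw [h, one_mul]⟩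

theorem CEq.of_smul {X Y : Submodule T K} {u : K} (hu : u ≠ 0)
    (h : ∀ x : K, x ∈ X ↔ u * x ∈ Y) : CEq X Y := by
  refine ⟨u⁻¹, inv_ne_zero hu, fun x => ?_⟩
  rw [Submodule.mem_div_iff_forall_mul_mem, Submodule.mem_div_iff_forall_mul_mem]
  constructor
  · intro H y hy
    have h1 : u⁻¹ * y ∈ X := by rw [h, ← mul_assoc, mul_inv_cancel₀ hu, one_mul]; exact hy
    have := H _ h1
    rwa [← mul_assoc, mul_comm x] at this
  · intro H y hy
    have := H _ ((h y).1 hy)
    have h2 : u⁻¹ * x * (u * y) = x * y := by field_simp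
    rwa [h2] at this

/-- The class of `X` is torsion. -/
def Tors (X : Submodule T K) : Prop := ∃ r : ℕ, 0 < r ∧ CEq (X ^ r) 1

theorem Tors.of_CEq {X Y : Submodule T K} (h : CEq X Y) (hY : Tors Y) : Tors X := by
  obtain ⟨r, hr, h1⟩ := hY
  exact ⟨r, hr, (h.pow r).trans h1⟩

theorem one_div_one : (1 / 1 : Submodule T K) = 1 := by
  ext x
  rw [Submodule.mem_div_iff_forall_mul_mem]
  constructor
  · intro h
    simpa using h 1 (Submodule.one_le.1 le_rfl)
  · intro h y hy
    have := Submodule.mul_mem_mul h hy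
    simpa using this

theorem mem_one_div {X : Submodule T K} {x : K} :
    x ∈ (1 / X : Submodule T K) ↔ ∀ y ∈ X, x * y ∈ (1 : Submodule T K) :=
  Submodule.mem_div_iff_forall_mul_mem

section normal

variable [IsDomain T] [IsFractionRing T K] [IsNoetherianRing T] [IsIntegrallyClosed T]

omit [IsDomain T] [IsNoetherianRing T] in
theorem mem_one_of_isIntegral {x : K} (h : IsIntegral T x) : x ∈ (1 : Submodule T K) := by
  obtain ⟨y, hy⟩ := IsIntegrallyClosed.isIntegral_iff.1 h
  rw [Submodule.mem_one]
  exact ⟨y, hy⟩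

omit [IsIntegrallyClosed T] in
/-- `1 / X` is finitely generated if `X ≠ 0`. -/
theorem fg_one_div {X : Submodule T K} (hX : X ≠ ⊥) : (1 / X : Submodule T K).FG := by
  obtain ⟨w, hw, hw0⟩ := Submodule.exists_mem_ne_zero_of_ne_bot hX
  -- multiplication by `w` embeds `1 / X` in `1`
  have hfg : (1 : Submodule T K).FG := by
    rw [Submodule.one_eq_span]; exact Submodule.fg_span_singleton 1
  have h1 : IsNoetherian T (1 : Submodule T K) := isNoetherian_of_fg_of_noetherian _ hfg
  let f : K →ₗ[T] K := LinearMap.mulLeft T w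
  have hf : Function.Injective f := fun a b hab => mul_left_cancel₀ hw0 hab
  have hle : (1 / X : Submodule T K).map f ≤ 1 := by
    rintro _ ⟨x, hx, rfl⟩
    have := mem_one_div.1 hx w hw
    show w * x ∈ _
    rwa [mul_comm]
  have h2 : ((1 / X : Submodule T K).map f).FG := by
    have := (isNoetherian_submodule.1 h1) _ hle
    exact this
  exact Submodule.fg_of_fg_map_injective f hf h2

omit [IsIntegrallyClosed T] [IsNoetherianRing T] in
/-- `1 / X ≠ 0` if `X` is finitely generated. -/
theorem one_div_ne_bot {X : Submodule T K} (hX : X.FG) : (1 / X : Submodule T K) ≠ ⊥ := by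
  obtain ⟨s, hs⟩ := hX
  obtain ⟨b, hb⟩ := IsLocalization.exist_integer_multiples_of_finset (nonZeroDivisors T) s
  have hb0 : algebraMap T K b ≠ 0 := by
    simp
  intro h
  have : algebraMap T K b ∈ (1 / X : Submodule T K) := by
    rw [mem_one_div]
    intro y hy
    rw [← hs] at hy
    refine Submodule.span_induction ?_ ?_ ?_ ?_ hy
    · intro x hx
      obtain ⟨c, hc⟩ := hb x hx
      rw [Submodule.mem_one]
      refine ⟨c, ?_⟩
      rw [hc, Algebra.smul_def]
    · simp
    · intro x y _ _ hx hy
      rw [mul_add]; exact add_mem hx hy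
    · intro a x _ hx
      rw [mul_smul_comm]
      exact Submodule.smul_mem _ _ hx
  rw [h] at this
  exact hb0 ((Submodule.mem_bot T).1 this)

/-- If a nonzero finitely generated fractional ideal is stable under `x` then `x ∈ T`. -/
theorem mem_one_of_stable {X : Submodule T K} (hX : X.FG) (hX0 : X ≠ ⊥) {x : K}
    (h : ∀ y ∈ X, x * y ∈ X) : x ∈ (1 : Submodule T K) := by
  apply mem_one_of_isIntegral
  exact isIntegral_of_smul_mem_submodule (M := K) X hX0 hX x h

/-- `X * (1 / X)` has trivial class. -/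
theorem CEq_mul_one_div {X : Submodule T K} (hX : X.FG) (hX0 : X ≠ ⊥) :
    CEq (X * (1 / X)) (1 : Submodule T K) := by
  refine ⟨1, one_ne_zero, fun x => ?_⟩
  rw [one_mul, one_div_one, mem_one_div_mul]
  constructor
  · intro h
    exact mem_one_of_stable (fg_one_div hX0) (one_div_ne_bot hX) h
  · intro h y hy
    rw [Submodule.mem_one] at h
    obtain ⟨t, rfl⟩ := h
    rw [← Algebra.smul_def]
    exact Submodule.smul_mem _ _ hy

theorem one_div_mul_one_div {X : Submodule T K} (hX : X.FG) (hX0 : X ≠ ⊥) :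
    (1 / (X * (1 / X)) : Submodule T K) = 1 := by
  ext x
  rw [mem_one_div_mul]
  constructor
  · intro h
    exact mem_one_of_stable (fg_one_div hX0) (one_div_ne_bot hX) h
  · intro h y hy
    rw [Submodule.mem_one] at h
    obtain ⟨t, rfl⟩ := h
    rw [← Algebra.smul_def]
    exact Submodule.smul_mem _ _ hy

end normal

end WFT12
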