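import Pool.Agent.Lib_helper12.WFT.CartGen

/-!
Comparison of a canonical ideal with the fractional ideal `DD φ` of a Cartier map.
-/

namespace WFT12

open Submodule

/-- `I` is isomorphic, as a `T`-module, to `Hom_A (T, A)`. -/
def IsoHom (A : Type*) {T : Type*} [CommRing A] [CommRing T] [Algebra A T] (I : Ideal T) : Prop :=
  ∃ Ψ : I ≃+ (T →ₗ[A] A), ∀ (t s : T) (w : I), Ψ (t • w) s = Ψ w (t * s)

section

variable {A T K : Type*} [CommRing A] [IsDomain A] [CommRing T] [IsDomain T] [Algebra A T]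
  [Field K] [Algebra T K] [IsFractionRing T K]

theorem exists_den [Algebra.IsIntegral A T] (hinj : Function.Injective (algebraMap A T)) (h : K) :
    ∃ (a : A) (t : T), a ≠ 0 ∧
      h * algebraMap T K (algebraMap A T a) = algebraMap T K t := by
  obtain ⟨x, b, hb, rfl⟩ := IsFractionRing.div_surjective (A := T) h
  have hb0 : b ≠ 0 := nonZeroDivisors.ne_zero hb
  have hinjK := IsFractionRing.injective T K
  have hbK : algebraMap T K b ≠ 0 := fun h0 => hb0 (hinjK (by rw [h0, map_zero]))
  obtain ⟨a, ha, c, hc⟩ := (Algebra.IsIntegral.isIntegral (R := A) b).isAlgebraic.exists_nonzero_dvd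
    hb
  refine ⟨a, x * c, ha, ?_⟩
  rw [hc, map_mul, map_mul]
  field_simp

/-- The fractional ideal of `K` given by an ideal of `T`. -/
def toK (K : Type*) {T : Type*} [CommRing T] [Field K] [Algebra T K] (I : Ideal T) :
    Submodule T K := Submodule.map (Algebra.linearMap T K) I

omit [IsDomain T] [IsFractionRing T K] in
theorem mem_toK {I : Ideal T} {x : K} : x ∈ toK K I ↔ ∃ w ∈ I, algebraMap T K w = x := by
  simp [toK]

/-- Main identity: up to a nonzero factor `u`, `DD φ = (I : I^[q])`. -/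
theorem DD_eq [Algebra.IsIntegral A T] [IsNoetherianRing T] [IsIntegrallyClosed T]
    (hinj : Function.Injective (algebraMap A T))
    {q : ℕ} (hq : 0 < q) (hadd : ∀ x y : A, (x + y) ^ q = x ^ q + y ^ q) {Φ : A →+ A}
    (hΦ : IsGen q Φ) {φ : T →+ T} (hφ : IsCar q φ) (hφ0 : φ ≠ 0) {I : Ideal T} (hI0 : I ≠ ⊥)
    (hI : IsoHom A I) :
    ∃ u : K, u ≠ 0 ∧ ∀ h : K, h ∈ DD (K := K) q hq φ hφ ↔
      ∀ w ∈ I, ∃ w' ∈ I, u * h * algebraMap T K w ^ q = algebraMap T K w' := by
  have hinjK := IsFractionRing.injective T K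
  obtain ⟨Ψ, hΨ⟩ := hI
  have hΨ' : ∀ (w : I) (t s : T), Ψ w (t * s) = Ψ (t • w) s := fun w t s => (hΨ t s w).symm
  -- scalars from `A`
  have hA : ∀ (a : A) (w : I) (s : T), Ψ (algebraMap A T a • w) s = a * Ψ w s := by
    intro a w s
    rw [hΨ, ← Algebra.smul_def, map_smul, smul_eq_mul]
  -- the lifts
  have hlift : ∀ w : I, ∃ v : I, ∀ t, Ψ w (φ t) = Φ (Ψ v t) := by
    intro w
    obtain ⟨μ, hμ⟩ := gen_lift hq hadd hΦ (((Ψ w).toAddMonoidHom).comp φ) (by
      intro a t
      show Ψ w (φ (algebraMap A T a ^ q * t)) = a * Ψ w (φ t)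
      rw [hφ, ← Algebra.smul_def, map_smul, smul_eq_mul])
    refine ⟨Ψ.symm μ, fun t => ?_⟩
    rw [AddEquiv.apply_symm_apply]
    exact hμ t
  choose v hv using hlift
  -- uniqueness
  have huniq : ∀ v₁ v₂ : I, (∀ t, Φ (Ψ v₁ t) = Φ (Ψ v₂ t)) → v₁ = v₂ := by
    intro v₁ v₂ h
    apply Ψ.injective
    ext t
    rw [← sub_eq_zero]
    refine hΦ.nondeg hq fun c => ?_
    have h1 := h (algebraMap A T c * t)
    rw [hΨ', hΨ', hA, hA] at h1
    rw [mul_sub, map_sub, h1, sub_self]
  obtain ⟨w₀', hw₀I, hw₀0⟩ := Submodule.exists_mem_ne_zero_of_ne_bot hI0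
  set w₀ : I := ⟨w₀', hw₀I⟩ with hw₀
  have hcomm : ∀ w₁ w₂ : I, (w₁ : T) • w₂ = (w₂ : T) • w₁ := by
    intro w₁ w₂
    ext
    simp only [Submodule.coe_smul, smul_eq_mul]
    exact mul_comm _ _
  have hrel : ∀ w : I, (w₀ : T) ^ q • v w = (w : T) ^ q • v w₀ := by
    intro w
    apply huniq
    intro t
    rw [hΨ, hΨ, ← hv, ← hv, hφ, hφ, hΨ', hΨ', hcomm]
  have hv0 : v w₀ ≠ 0 := by
    intro h0
    apply hφ0
    ext x
    have h1 : φ x • w₀ = (0 : I) := by
      apply Ψ.injective
      ext y
      rw [hΨ, map_zero]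
      have : φ x * y = φ (y ^ q * x) := by rw [hφ, mul_comm]
      rw [this, hv, h0, map_zero]
      simp
    have h2 : φ x * w₀' = 0 := congrArg Subtype.val h1
    show φ x = 0
    exact (mul_eq_zero.1 h2).resolve_right hw₀0
  have hv0' : ((v w₀ : I) : T) ≠ 0 := fun h => hv0 (Subtype.ext h)
  have hw₀K : algebraMap T K w₀' ≠ 0 := fun h0 => hw₀0 (hinjK (by rw [h0, map_zero]))
  have hv0K : algebraMap T K (v w₀ : T) ≠ 0 := fun h0 => hv0' (hinjK (by rw [h0, map_zero]))
  refine ⟨algebraMap T K (v w₀ : T) / algebraMap T K w₀' ^ q,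
    div_ne_zero hv0K (pow_ne_zero _ hw₀K), fun h => ?_⟩
  obtain ⟨a, t, ha, hat⟩ := exists_den (A := A) hinj h
  have ha' : algebraMap A T a ≠ 0 := fun h0 => ha (hinj (by rw [h0, map_zero]))
  have haK : algebraMap T K (algebraMap A T a) ≠ 0 :=
    fun h0 => ha' (hinjK (by rw [h0, map_zero]))
  -- `z ∈ a T` iff `z I ⊆ a I`
  have hstab : ∀ z : T, algebraMap A T a ∣ z ↔ ∀ (w : I) (y : T), a ∣ Ψ w (z * y) := by
    intro z
    constructor
    · rintro ⟨x, rfl⟩ w y
      refine ⟨Ψ w (x * y), ?_⟩
      rw [mul_assoc, ← Algebra.smul_def, map_smul, smul_eq_mul]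
    · intro H
      -- `z w = a w'`
      have h1 : ∀ w : I, ∃ w' : I, z • w = algebraMap A T a • w' := by
        intro w
        choose g hg using H w
        have hgadd : ∀ x y, g (x + y) = g x + g y := by
          intro x y
          apply mul_left_cancel₀ ha
          rw [← hg (x + y), mul_add, mul_add a, ← hg x, ← hg y, map_add]
        have hgsmul : ∀ (c : A) (y : T), g (c • y) = c * g y := by
          intro c y
          apply mul_left_cancel₀ ha
          rw [← hg (c • y), mul_smul_comm, map_smul, smul_eq_mul, hg y]; ring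
        let G : T →ₗ[A] A := { toFun := g, map_add' := hgadd, map_smul' := hgsmul }
        refine ⟨Ψ.symm G, ?_⟩
        apply Ψ.injective
        ext y
        rw [hΨ, hA, AddEquiv.apply_symm_apply]
        exact hg y
      -- hence `z / a` is integral
      have h2 : algebraMap T K z / algebraMap T K (algebraMap A T a) ∈ (1 : Submodule T K) := by
        have hfg : (toK K I).FG := Submodule.FG.map _ (IsNoetherian.noetherian I)
        have hne : toK K I ≠ ⊥ := by
          intro hbot
          have : algebraMap T K w₀' ∈ toK K I :=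
            Submodule.mem_map_of_mem (f := Algebra.linearMap T K) hw₀I
          rw [hbot] at this
          exact hw₀K ((Submodule.mem_bot T).1 this)
        refine mem_one_of_stable hfg hne ?_
        rintro _ ⟨w, hw, rfl⟩
        obtain ⟨w', hw'⟩ := h1 ⟨w, hw⟩
        refine ⟨w', w'.2, ?_⟩
        have h3 : z * w = algebraMap A T a * w' := congrArg Subtype.val hw'
        rw [Algebra.linearMap_apply, Algebra.linearMap_apply]
        rw [div_mul_eq_mul_div, ← map_mul, h3, map_mul, mul_div_cancel_left₀ _ haK]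
      obtain ⟨y, hy⟩ := Submodule.mem_one.1 h2
      refine ⟨y, hinjK ?_⟩
      rw [map_mul, hy]
      field_simp
  rw [mem_DD_iff (K := K) (b := algebraMap A T a) (a := t) ha' hat]
  -- reformulate the left side
  have hleft : (∀ s : T, algebraMap A T a ∣ φ (algebraMap A T a ^ (q - 1) * (t * s))) ↔
      ∀ (w : I) (s : T), a ∣ Ψ (v w) (t * s) := by
    constructor
    · intro H w s
      apply gen_dvd hq hΦ ha
      intro c
      have h1 := ((hstab _).1 (H (algebraMap A T c * s))) w 1
      rw [mul_one, hv] at h1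
      have h2 : Ψ (v w) (algebraMap A T a ^ (q - 1) * (t * (algebraMap A T c * s))) =
          a ^ (q - 1) * (c * Ψ (v w) (t * s)) := by
        have : algebraMap A T a ^ (q - 1) * (t * (algebraMap A T c * s)) =
            (a ^ (q - 1)) • (c • (t * s)) := by
          rw [Algebra.smul_def, Algebra.smul_def, map_pow]; ring
        rw [this, map_smul, map_smul, smul_eq_mul, smul_eq_mul]
      rwa [h2] at h1
    · intro H s
      rw [hstab]
      intro w y
      have h1 : φ (algebraMap A T a ^ (q - 1) * (t * s)) * y =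
          φ (algebraMap A T a ^ (q - 1) * (t * (s * y ^ q))) := by
        rw [mul_comm, ← hφ]
        congr 1
        ring
      rw [h1, hv]
      obtain ⟨b, hb⟩ := H w (s * y ^ q)
      have h2 : Ψ (v w) (algebraMap A T a ^ (q - 1) * (t * (s * y ^ q))) = a ^ q * b := by
        have : algebraMap A T a ^ (q - 1) * (t * (s * y ^ q)) =
            (a ^ (q - 1)) • (t * (s * y ^ q)) := by
          rw [Algebra.smul_def, map_pow]
        rw [this, map_smul, smul_eq_mul, hb, ← mul_assoc, ← pow_succ]
        congr 2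
        omega
      rw [h2, hΦ.1]
      exact ⟨_, rfl⟩
  rw [hleft]
  -- reformulate the right side
  constructor
  · intro H w hw
    -- `t v_w = a w'`
    choose g hg using H ⟨w, hw⟩
    have hgadd : ∀ x y, g (x + y) = g x + g y := by
      intro x y
      apply mul_left_cancel₀ ha
      rw [← hg (x + y), mul_add, mul_add a, ← hg x, ← hg y, map_add]
    have hgsmul : ∀ (c : A) (y : T), g (c • y) = c * g y := by
      intro c y
      apply mul_left_cancel₀ ha
      rw [← hg (c • y), mul_smul_comm, map_smul, smul_eq_mul, hg y]; ring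
    let G : T →ₗ[A] A := { toFun := g, map_add' := hgadd, map_smul' := hgsmul }
    have h1 : t • v ⟨w, hw⟩ = algebraMap A T a • Ψ.symm G := by
      apply Ψ.injective
      ext y
      rw [hΨ, hA, AddEquiv.apply_symm_apply]
      exact hg y
    refine ⟨(Ψ.symm G : I), (Ψ.symm G).2, ?_⟩
    have h2 : t * (v ⟨w, hw⟩ : T) = algebraMap A T a * (Ψ.symm G : I) :=
      congrArg Subtype.val h1
    have h3 : w₀' ^ q * (v ⟨w, hw⟩ : T) = w ^ q * (v w₀ : T) :=
      congrArg Subtype.val (hrel ⟨w, hw⟩)
    have h2K := congrArg (algebraMap T K) h2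
    have h3K := congrArg (algebraMap T K) h3
    simp only [map_mul, map_pow] at h2K h3K
    rw [← hat] at h2K
    apply mul_left_cancel₀ haK
    rw [← h2K]
    have h6 : algebraMap T K w ^ q * algebraMap T K (v w₀ : T) / algebraMap T K w₀' ^ q =
        algebraMap T K (v ⟨w, hw⟩ : T) := by
      rw [← h3K, mul_div_cancel_left₀ _ (pow_ne_zero _ hw₀K)]
    rw [← h6]
    ring
  · intro H w s
    obtain ⟨w', hw', hww⟩ := H w w.2
    have h3 : w₀' ^ q * (v w : T) = (w : T) ^ q * (v w₀ : T) :=
      congrArg Subtype.val (hrel w)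
    have h3K := congrArg (algebraMap T K) h3
    simp only [map_mul, map_pow] at h3K
    have h4 : t * (v w : T) = algebraMap A T a * w' := by
      apply hinjK
      rw [map_mul, map_mul, ← hww, ← hat]
      have h6 : algebraMap T K w ^ q * algebraMap T K (v w₀ : T) / algebraMap T K w₀' ^ q =
          algebraMap T K (v w : T) := by
        rw [← h3K, mul_div_cancel_left₀ _ (pow_ne_zero _ hw₀K)]
      rw [← h6]
      ring
    have h5 : t • v w = algebraMap A T a • (⟨w', hw'⟩ : I) := Subtype.ext h4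
    refine ⟨Ψ ⟨w', hw'⟩ s, ?_⟩
    rw [hΨ', h5, hA]

end

end WFT12
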