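import Pool.Agent.Lib_helper12.WFT.Compare

/-!
`[DD φ] = (1 - q) [I]` for a canonical ideal `I`.
-/

namespace WFT12

open Submodule

section

variable {T K : Type*} [CommRing T] [Field K] [Algebra T K]

theorem mem_one_div_pow {X : Submodule T K} {n : ℕ} {x : K} :
    x ∈ (1 / (X ^ n) : Submodule T K) ↔
      ∀ f : Fin n → K, (∀ i, f i ∈ X) → x * ∏ i, f i ∈ (1 : Submodule T K) := by
  induction n generalizing x with
  | zero =>
    rw [pow_zero, one_div_one]
    simp
  | succ n ih =>
    rw [pow_succ, mem_one_div_mul]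
    constructor
    · intro h f hf
      have := (ih.1 (h (f (Fin.last n)) (hf _))) (fun i => f i.castSucc) (fun i => hf _)
      rw [Fin.prod_univ_castSucc]
      rwa [mul_assoc, mul_comm (f (Fin.last n))] at this
    · intro h y hy
      rw [ih]
      intro f hf
      have := h (Fin.snoc f y : Fin (n + 1) → K) (by
        intro i
        refine Fin.lastCases ?_ (fun j => ?_) i
        · simpa using hy
        · simpa using hf j)
      rw [Fin.prod_univ_castSucc] at this
      simp only [Fin.snoc_castSucc, Fin.snoc_last] at this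
      rwa [mul_assoc, mul_comm y]

theorem mul_mem_of_mem_one {X : Submodule T K} {a x : K} (ha : a ∈ (1 : Submodule T K))
    (hx : x ∈ X) : a * x ∈ X := by
  obtain ⟨t, rfl⟩ := Submodule.mem_one.1 ha
  rw [← Algebra.smul_def]
  exact Submodule.smul_mem _ _ hx

theorem prod_mem_one {ι : Type*} (s : Finset ι) (f : ι → K)
    (hf : ∀ i ∈ s, f i ∈ (1 : Submodule T K)) : ∏ i ∈ s, f i ∈ (1 : Submodule T K) := by
  classical
  induction s using Finset.induction_on with
  | empty => rw [Finset.prod_empty]; exact Submodule.one_le.1 le_rfl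
  | insert i s hi ih =>
    rw [Finset.prod_insert hi]
    exact mul_mem_of_mem_one (hf i (Finset.mem_insert_self _ _))
      (ih fun j hj => hf j (Finset.mem_insert_of_mem hj))

theorem mem_one_of_pow_mem [IsDomain T] [IsFractionRing T K] [IsIntegrallyClosed T]
    {x : K} {n : ℕ} (hn : 0 < n)
    (h : x ^ n ∈ (1 : Submodule T K)) : x ∈ (1 : Submodule T K) := by
  apply mem_one_of_isIntegral
  obtain ⟨t, ht⟩ := Submodule.mem_one.1 h
  refine IsIntegral.of_pow hn ?_
  rw [← ht]
  exact isIntegral_algebraMap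

theorem fg_mul {X Y : Submodule T K} (hX : X.FG) (hY : Y.FG) : (X * Y).FG := Submodule.FG.mul hX hY

theorem mul_ne_bot' {X Y : Submodule T K} (hX : X ≠ ⊥) (hY : Y ≠ ⊥) : X * Y ≠ ⊥ := by
  obtain ⟨x, hx, hx0⟩ := Submodule.exists_mem_ne_zero_of_ne_bot hX
  obtain ⟨y, hy, hy0⟩ := Submodule.exists_mem_ne_zero_of_ne_bot hY
  intro h
  have := Submodule.mul_mem_mul hx hy
  rw [h] at this
  exact mul_ne_zero hx0 hy0 ((Submodule.mem_bot T).1 this)

theorem pow_ne_bot' {X : Submodule T K} (hX : X ≠ ⊥) (n : ℕ) : X ^ n ≠ ⊥ := by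
  obtain ⟨x, hx, hx0⟩ := Submodule.exists_mem_ne_zero_of_ne_bot hX
  intro h
  have := Submodule.pow_mem_pow X hx n
  rw [h] at this
  exact pow_ne_zero n hx0 ((Submodule.mem_bot T).1 this)

end

section

variable {A T K : Type*} [CommRing A] [IsDomain A] [CommRing T] [IsDomain T] [Algebra A T]
  [Field K] [Algebra T K] [IsFractionRing T K]

/-- If `u D = (W : W^[q])` then `D W^(q-1)` has trivial class. -/
theorem CEq_of_colon [IsNoetherianRing T] [IsIntegrallyClosed T] {q : ℕ} (hq : 0 < q)
    {φ : T →+ T} (hφ : IsCar q φ) {W : Submodule T K} (hW : W.FG) (hW0 : W ≠ ⊥) {u : K}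
    (hu : u ≠ 0)
    (hD : ∀ h : K, h ∈ DD (K := K) q hq φ hφ ↔ ∀ w ∈ W, u * h * w ^ q ∈ W) :
    CEq (DD (K := K) q hq φ hφ * W ^ (q - 1)) 1 := by
  set D := DD (K := K) q hq φ hφ with hDdef
  obtain ⟨w₀, hw₀, hw₀0⟩ := Submodule.exists_mem_ne_zero_of_ne_bot hW0
  -- `D` is finitely generated
  have hDfg : D.FG := by
    have h1 : IsNoetherian T W := isNoetherian_of_fg_of_noetherian _ hW
    let f : K →ₗ[T] K := LinearMap.mulLeft T (u * w₀ ^ q)
    have hf : Function.Injective f := fun a b hab =>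
      mul_left_cancel₀ (mul_ne_zero hu (pow_ne_zero _ hw₀0)) hab
    have hle : D.map f ≤ W := by
      rintro _ ⟨x, hx, rfl⟩
      have := (hD x).1 hx w₀ hw₀
      show u * w₀ ^ q * x ∈ W
      have h2 : u * w₀ ^ q * x = u * x * w₀ ^ q := by ring
      rwa [h2]
    exact Submodule.fg_of_fg_map_injective f hf ((isNoetherian_submodule.1 h1) _ hle)
  set Y : Submodule T K := W ^ q * (1 / W) with hY
  have hYfg : Y.FG := fg_mul (hW.pow q) (fg_one_div hW0)
  have hY0 : Y ≠ ⊥ := mul_ne_bot' (pow_ne_bot' hW0 q) (one_div_ne_bot hW)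
  have hDY : ∀ h : K, h ∈ D ↔ u * h ∈ (1 / Y : Submodule T K) := by
    intro h
    constructor
    · intro hh
      rw [hY, mem_one_div_mul]
      intro y hy
      rw [mem_one_div_pow]
      intro f hf
      apply mem_one_of_pow_mem hq
      have h1 : (u * h * y * ∏ i, f i) ^ q = ∏ i, (u * h * f i ^ q * y) := by
        rw [mul_pow, ← Finset.prod_pow, Finset.prod_mul_distrib, Finset.prod_mul_distrib,
          Finset.prod_const, Finset.prod_const, Finset.card_univ, Fintype.card_fin]
        ring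
      rw [h1]
      refine prod_mem_one _ _ fun i _ => ?_
      have h2 := (hD h).1 hh (f i) (hf i)
      rw [mul_comm]
      exact mem_one_div.1 hy _ h2
    · intro hh
      have hN1 : W * (1 / W) ≤ (1 : Submodule T K) := by
        rw [Submodule.mul_le]
        intro m hm n hn
        rw [mul_comm]
        exact mem_one_div.1 hn _ hm
      refine DD_divisorial hDfg hN1 (one_div_mul_one_div hW hW0) ?_
      intro n hn
      refine Submodule.mul_induction_on hn ?_ ?_
      · intro m hm y hy
        rw [← hDdef, hD]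
        intro w hw
        have h1 : u * (h * (m * y)) * w ^ q = (u * h * y * w ^ q) * m := by ring
        rw [h1]
        refine mul_mem_of_mem_one ?_ hm
        rw [hY, mem_one_div_mul] at hh
        have h2 := hh y hy
        rw [mem_one_div] at h2
        exact h2 _ (Submodule.pow_mem_pow W hw q)
      · intro a b ha hb
        rw [mul_add]
        exact add_mem ha hb
  have h1 : CEq D (1 / Y) := CEq.of_smul hu hDY
  have h2 : CEq Y (W ^ (q - 1)) := by
    have h3 : Y = W ^ (q - 1) * (W * (1 / W)) := by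
      rw [hY, ← mul_assoc, ← pow_succ]
      congr 2
      omega
    rw [h3]
    have h4 := (CEq_mul_one_div hW hW0).mul_right (W ^ (q - 1))
    rw [one_mul, mul_comm] at h4
    exact h4
  have h5 := h1.mul h2.symm
  refine h5.trans ?_
  rw [mul_comm]
  exact CEq_mul_one_div hYfg hY0

/-- `[DD φ] = (1 - q) [I]` for a canonical ideal `I`. -/
theorem CEq_DD [Algebra.IsIntegral A T] [IsNoetherianRing T] [IsIntegrallyClosed T]
    (hinj : Function.Injective (algebraMap A T))
    {q : ℕ} (hq : 0 < q) (hadd : ∀ x y : A, (x + y) ^ q = x ^ q + y ^ q) {Φ : A →+ A}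
    (hΦ : IsGen q Φ) {φ : T →+ T} (hφ : IsCar q φ) (hφ0 : φ ≠ 0) {I : Ideal T} (hI0 : I ≠ ⊥)
    (hI : IsoHom A I) :
    CEq (DD (K := K) q hq φ hφ * toK K I ^ (q - 1)) 1 := by
  obtain ⟨u, hu, hu'⟩ := DD_eq (K := K) hinj hq hadd hΦ hφ hφ0 hI0 hI
  have hinjK := IsFractionRing.injective T K
  refine CEq_of_colon hq hφ (W := toK K I) (Submodule.FG.map _ (IsNoetherian.noetherian I)) ?_ hu ?_
  · intro hbot
    apply hI0
    rw [eq_bot_iff]
    intro x hx
    have : algebraMap T K x ∈ toK K I := Submodule.mem_map_of_mem (f := Algebra.linearMap T K) hx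
    rw [hbot] at this
    have h0 : algebraMap T K x = 0 := (Submodule.mem_bot T).1 this
    rw [Submodule.mem_bot]
    exact hinjK (by rw [h0, map_zero])
  · intro h
    rw [hu']
    constructor
    · rintro H _ ⟨w, hw, rfl⟩
      obtain ⟨w', hw', e⟩ := H w hw
      rw [Algebra.linearMap_apply, e]
      exact ⟨w', hw', rfl⟩
    · intro H w hw
      obtain ⟨w', hw', e⟩ := H (algebraMap T K w) ⟨w, hw, rfl⟩
      exact ⟨w', hw', e.symm⟩

/-- Torsion is transferred from `DD φ` to `I` and back. -/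
theorem tors_of_CEq {D W : Submodule T K} {n : ℕ} (hn : 0 < n) (h : CEq (D * W ^ n) 1)
    (hD : Tors D) : Tors W := by
  obtain ⟨r, hr, h1⟩ := hD
  refine ⟨n * r, Nat.mul_pos hn hr, ?_⟩
  have h2 := h.pow r
  rw [mul_pow, one_pow, ← pow_mul] at h2
  have h3 := h1.mul_right (W ^ (n * r))
  rw [one_mul] at h3
  exact h3.symm.trans h2

theorem tors_of_CEq' {D W : Submodule T K} {n : ℕ} (h : CEq (D * W ^ n) 1)
    (hW : Tors W) : Tors D := by
  obtain ⟨r, hr, h1⟩ := hW
  refine ⟨r, hr, ?_⟩
  have h2 := h.pow r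
  rw [mul_pow, one_pow, ← pow_mul, mul_comm n r, pow_mul] at h2
  have h3 := (h1.pow n).mul_right (D ^ r)
  rw [one_pow, one_mul] at h3
  rw [mul_comm] at h2
  exact h3.symm.trans h2

end

end WFT12
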