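import Pool.Agent.Lib_helper12.WFT.Compare2

/-!
Base change and descent of divisor classes along a (faithfully) flat map of domains.
-/

namespace WFT12

open Submodule

/-- Solutions of a finite homogeneous linear system in a flat module are combinations of
solutions in the ring. -/
theorem flat_system {R S : Type*} [CommRing R] [AddCommGroup S] [Module R S] [Module.Flat R S]
    {ι κ : Type*} [Fintype ι] [Fintype κ] (c : κ → ι → R) (s : ι → S)
    (h : ∀ j, ∑ i, c j i • s i = 0) :
    ∃ (k : ℕ) (r : ι → Fin k → R) (y : Fin k → S), (∀ i, s i = ∑ l, r i l • y l) ∧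
      ∀ j l, ∑ i, c j i * r i l = 0 := by
  classical
  let f : (κ → R) →ₗ[R] (ι → R) :=
    { toFun := fun v i => ∑ j, v j * c j i
      map_add' := by
        intro v w; ext i
        simp only [Pi.add_apply, add_mul, Finset.sum_add_distrib]
      map_smul' := by
        intro a v; ext i
        simp only [Pi.smul_apply, smul_eq_mul, RingHom.id_apply, Finset.mul_sum, mul_assoc] }
  let x : (ι → R) →ₗ[R] S :=
    { toFun := fun v => ∑ i, v i • s i
      map_add' := by
        intro v w
        simp only [Pi.add_apply, add_smul, Finset.sum_add_distrib]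
      map_smul' := by
        intro a v
        simp only [Pi.smul_apply, smul_eq_mul, RingHom.id_apply, Finset.smul_sum, mul_smul] }
  have hx : x ∘ₗ f = 0 := by
    ext j
    simp only [LinearMap.coe_comp, Function.comp_apply, LinearMap.coe_single, LinearMap.zero_apply]
    show ∑ i, (∑ j', (Pi.single j (1 : R) : κ → R) j' * c j' i) • s i = 0
    rw [← h j]
    refine Finset.sum_congr rfl fun i _ => ?_
    congr 1
    rw [Finset.sum_eq_single j]
    · simp
    · intro b _ hb; simp [hb]
    · intro hj; exact absurd (Finset.mem_univ _) hj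
  obtain ⟨k, a, y, hya, haf⟩ := Module.Flat.exists_factorization_of_comp_eq_zero_of_free hx
  refine ⟨k, fun i l => a (Pi.single i 1) l, fun l => y (Finsupp.single l 1), ?_, ?_⟩
  · intro i
    have h1 : s i = x (Pi.single i 1) := by
      show s i = ∑ i', (Pi.single i (1 : R) : ι → R) i' • s i'
      rw [Finset.sum_eq_single i]
      · simp
      · intro b _ hb; simp [hb]
      · intro hj; exact absurd (Finset.mem_univ _) hj
    rw [h1, hya, LinearMap.comp_apply]
    conv_lhs => rw [← Finsupp.sum_single (a (Pi.single i 1))]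
    rw [Finsupp.sum_fintype _ _ (by simp), map_sum]
    refine Finset.sum_congr rfl fun l _ => ?_
    rw [← map_smul, Finsupp.smul_single, smul_eq_mul, mul_one]
  · intro j l
    have h1 : a (f (Pi.single j 1)) = 0 := by
      have := LinearMap.congr_fun haf (Pi.single j 1)
      simpa using this
    have h2 : f (Pi.single j 1) = ∑ i, c j i • (Pi.single i (1 : R) : ι → R) := by
      ext i
      show ∑ j', (Pi.single j (1 : R) : κ → R) j' * c j' i = _
      rw [Finset.sum_eq_single j]
      · rw [Finset.sum_apply, Finset.sum_eq_single i]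
        · simp
        · intro b _ hb; simp [hb.symm]
        · intro hj; exact absurd (Finset.mem_univ _) hj
      · intro b _ hb; simp [hb]
      · intro hj; exact absurd (Finset.mem_univ _) hj
    rw [h2, map_sum] at h1
    have h3 := DFunLike.congr_fun h1 l
    simp only [map_smul, Finsupp.coe_finsetSum, Finset.sum_apply, Finsupp.coe_smul, Pi.smul_apply,
      smul_eq_mul, Finsupp.coe_zero, Pi.zero_apply] at h3
    exact h3

section

variable {R S K L : Type*} [CommRing R] [CommRing S] [Algebra R S]
  [Field K] [Algebra R K] [Field L] [Algebra S L] [Algebra R L]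
  [Algebra K L] [IsScalarTower R K L] [IsScalarTower R S L]

variable (S L) in
/-- extension of a fractional ideal -/
def extS (X : Submodule R K) : Submodule S L := Submodule.span S (algebraMap K L '' X)

omit [Algebra R S] [Algebra R L] [IsScalarTower R K L] [IsScalarTower R S L] in
theorem mem_extS_of_mem {X : Submodule R K} {x : K} (hx : x ∈ X) :
    algebraMap K L x ∈ extS S L X := Submodule.subset_span ⟨x, hx, rfl⟩

theorem extS_one : extS S L (1 : Submodule R K) = 1 := by
  apply le_antisymm
  · rw [extS, Submodule.span_le]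
    rintro _ ⟨x, hx, rfl⟩
    obtain ⟨r, rfl⟩ := Submodule.mem_one.1 hx
    rw [SetLike.mem_coe, Submodule.mem_one]
    exact ⟨algebraMap R S r, by
      rw [← IsScalarTower.algebraMap_apply R S L, ← IsScalarTower.algebraMap_apply R K L]⟩
  · rw [Submodule.one_le]
    rw [← map_one (algebraMap K L)]
    exact mem_extS_of_mem (Submodule.one_le.1 le_rfl)

omit [Algebra R S] [Algebra R L] [IsScalarTower R K L] [IsScalarTower R S L] in
theorem extS_mul (X Y : Submodule R K) : extS S L (X * Y) = extS S L X * extS S L Y := by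
  apply le_antisymm
  · rw [extS, Submodule.span_le]
    rintro _ ⟨x, hx, rfl⟩
    refine Submodule.mul_induction_on hx ?_ ?_
    · intro m hm n hn
      rw [map_mul]
      exact Submodule.mul_mem_mul (mem_extS_of_mem hm) (mem_extS_of_mem hn)
    · intro a b ha hb
      rw [map_add]
      exact add_mem ha hb
  · rw [extS, extS, Submodule.span_mul_span, Submodule.span_le]
    rintro _ ⟨_, ⟨x, hx, rfl⟩, _, ⟨y, hy, rfl⟩, rfl⟩
    show algebraMap K L x * algebraMap K L y ∈ _
    rw [← map_mul]
    exact mem_extS_of_mem (Submodule.mul_mem_mul hx hy)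

theorem extS_pow (X : Submodule R K) (n : ℕ) : extS S L (X ^ n) = extS S L X ^ n := by
  induction n with
  | zero => rw [pow_zero, pow_zero, extS_one]
  | succ n ih => rw [pow_succ, pow_succ, extS_mul, ih]

theorem extS_fg {X : Submodule R K} (hX : X.FG) : (extS S L X).FG := by
  obtain ⟨s, hs⟩ := hX
  classical
  refine ⟨s.image (algebraMap K L), ?_⟩
  apply le_antisymm
  · apply Submodule.span_mono
    intro y hy
    rw [Finset.coe_image] at hy
    obtain ⟨x, hx, rfl⟩ := hy
    exact ⟨x, hs ▸ Submodule.subset_span hx, rfl⟩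
  · rw [extS, Submodule.span_le]
    rintro _ ⟨x, hx, rfl⟩
    rw [SetLike.mem_coe] at hx
    rw [← hs] at hx
    refine Submodule.span_induction ?_ ?_ ?_ ?_ hx
    · intro x hx
      exact Submodule.subset_span (by rw [Finset.coe_image]; exact ⟨x, hx, rfl⟩)
    · simp
    · intro x y _ _ hx hy
      rw [map_add]; exact add_mem hx hy
    · intro a x _ hx
      rw [Algebra.smul_def, map_mul, ← IsScalarTower.algebraMap_apply R K L,
        IsScalarTower.algebraMap_apply R S L, ← Algebra.smul_def]
      exact Submodule.smul_mem _ _ hx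

omit [Algebra R S] [Algebra R L] [IsScalarTower R K L] [IsScalarTower R S L] in
theorem extS_ne_bot {X : Submodule R K} (hX : X ≠ ⊥) : extS S L X ≠ ⊥ := by
  obtain ⟨x, hx, hx0⟩ := Submodule.exists_mem_ne_zero_of_ne_bot hX
  intro h
  have := mem_extS_of_mem (S := S) (L := L) hx
  rw [h, Submodule.mem_bot] at this
  exact hx0 ((map_eq_zero (algebraMap K L)).1 this)

/-- `1 / X` commutes with flat base change. -/
theorem one_div_extS [IsDomain R] [IsFractionRing R K] [IsDomain S] [IsFractionRing S L]
    [Module.Flat R S] {X : Submodule R K} (hX : X.FG) (hX0 : X ≠ ⊥) :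
    (1 / extS S L X : Submodule S L) = extS S L (1 / X) := by
  have hinjS := IsFractionRing.injective S L
  have hinjR := IsFractionRing.injective R K
  apply le_antisymm
  · intro y hy
    obtain ⟨s, hs⟩ := hX
    classical
    -- common denominator
    obtain ⟨b, hb⟩ := IsLocalization.exist_integer_multiples_of_finset (nonZeroDivisors R) s
    have hb0 : algebraMap R K b ≠ 0 := by simp
    choose a ha using hb
    -- a nonzero generator
    obtain ⟨x₀, hx₀, hx₀0⟩ : ∃ x ∈ s, x ≠ 0 := by
      by_contra hcon
      push Not at hcon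
      apply hX0
      rw [← hs, Submodule.span_eq_bot]
      intro x hx
      exact hcon x hx
    have hys : ∀ i : s, ∃ t : S, algebraMap S L t = y * algebraMap K L i := by
      intro i
      have h1 : (i : K) ∈ X := by rw [← hs]; exact Submodule.subset_span i.2
      exact Submodule.mem_one.1 (mem_one_div.1 hy _ (mem_extS_of_mem h1))
    choose t ht using hys
    have haK : ∀ (i : K) (hi : i ∈ s), algebraMap R K (a i hi) = algebraMap R K b * i := by
      intro i hi
      rw [ha i hi, Algebra.smul_def]
    have hRL : ∀ r : R, algebraMap R L r = algebraMap K L (algebraMap R K r) := fun r =>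
      IsScalarTower.algebraMap_apply R K L r
    have hRSL : ∀ (r : R) (z : S), algebraMap S L (r • z) =
        algebraMap K L (algebraMap R K r) * algebraMap S L z := by
      intro r z
      rw [Algebra.smul_def, map_mul, ← IsScalarTower.algebraMap_apply R S L, hRL]
    obtain ⟨k, r, σ, h1, h2⟩ := flat_system (R := R) (S := S) (ι := s) (κ := s)
      (fun j i => (if i = j then a x₀ hx₀ else 0) - (if i = ⟨x₀, hx₀⟩ then a j j.2 else 0))
      t (by
        intro j
        simp only [sub_smul, Finset.sum_sub_distrib, ite_smul, zero_smul, Finset.sum_ite_eq',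
          Finset.mem_univ, if_true]
        apply hinjS
        rw [map_sub, hRSL, hRSL, ht, ht, haK, haK, map_zero, map_mul, map_mul]
        ring)
    have h3 : ∀ (j : s) (l : Fin k), a x₀ hx₀ * r j l = a j j.2 * r ⟨x₀, hx₀⟩ l := by
      intro j l
      have := h2 j l
      simp only [sub_mul, Finset.sum_sub_distrib, ite_mul, zero_mul, Finset.sum_ite_eq',
          Finset.mem_univ, if_true] at this
      exact sub_eq_zero.1 this
    -- the combination
    have h4 : ∀ l, algebraMap R K (r ⟨x₀, hx₀⟩ l) / x₀ ∈ (1 / X : Submodule R K) := by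
      intro l
      rw [mem_one_div]
      intro z hz
      rw [← hs] at hz
      refine Submodule.span_induction ?_ ?_ ?_ ?_ hz
      · intro x hx
        rw [Submodule.mem_one]
        refine ⟨r ⟨x, hx⟩ l, ?_⟩
        have h5 := congrArg (algebraMap R K) (h3 ⟨x, hx⟩ l)
        rw [map_mul, map_mul, haK, haK] at h5
        apply mul_left_cancel₀ hx₀0
        apply mul_left_cancel₀ hb0
        rw [← mul_assoc, h5]
        field_simp
      · simp
      · intro x y _ _ hx hy
        rw [mul_add]; exact add_mem hx hy
      · intro c x _ hx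
        rw [mul_smul_comm]
        exact Submodule.smul_mem _ _ hx
    have h6 : y = ∑ l, σ l • algebraMap K L (algebraMap R K (r ⟨x₀, hx₀⟩ l) / x₀) := by
      have hx₀L : algebraMap K L x₀ ≠ 0 := fun h => hx₀0 ((map_eq_zero (algebraMap K L)).1 h)
      apply mul_right_cancel₀ hx₀L
      rw [← ht ⟨x₀, hx₀⟩, h1 ⟨x₀, hx₀⟩, map_sum, Finset.sum_mul]
      refine Finset.sum_congr rfl fun l _ => ?_
      rw [hRSL, Algebra.smul_def, map_div₀]
      field_simp
    rw [h6]
    exact Submodule.sum_mem _ fun l _ => Submodule.smul_mem _ _ (mem_extS_of_mem (h4 l))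
  · rw [extS, Submodule.span_le]
    rintro _ ⟨z, hz, rfl⟩
    rw [SetLike.mem_coe, mem_one_div]
    intro y hy
    rw [SetLike.mem_coe] at hz
    refine Submodule.span_induction ?_ ?_ ?_ ?_ hy
    · rintro _ ⟨x, hx, rfl⟩
      rw [← map_mul]
      obtain ⟨r, hr⟩ := Submodule.mem_one.1 (mem_one_div.1 hz x hx)
      rw [← hr, Submodule.mem_one]
      exact ⟨algebraMap R S r, by
        rw [← IsScalarTower.algebraMap_apply R S L, ← IsScalarTower.algebraMap_apply R K L]⟩
    · simp
    · intro x y _ _ hx hy
      rw [mul_add]; exact add_mem hx hy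
    · intro c x _ hx
      rw [mul_smul_comm]
      exact Submodule.smul_mem _ _ hx

/-- Equality of classes is preserved by flat base change. -/
theorem CEq_extS [IsDomain R] [IsFractionRing R K] [IsDomain S] [IsFractionRing S L]
    [Module.Flat R S] {X Y : Submodule R K} (hX : X.FG) (hX0 : X ≠ ⊥)
    (hY : Y.FG) (hY0 : Y ≠ ⊥) (h : CEq X Y) : CEq (extS S L X) (extS S L Y) := by
  have key : ∀ {X Y : Submodule R K} {g : K}, (∀ x : K, x ∈ (1 / X : Submodule R K) →
      g * x ∈ (1 / Y : Submodule R K)) → ∀ y : L, y ∈ extS S L (1 / X) →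
      algebraMap K L g * y ∈ extS S L (1 / Y) := by
    intro X Y g hg y hy
    refine Submodule.span_induction ?_ ?_ ?_ ?_ hy
    · rintro _ ⟨x, hx, rfl⟩
      rw [← map_mul]
      exact mem_extS_of_mem (hg x hx)
    · simp
    · intro x y _ _ hx hy
      rw [mul_add]; exact add_mem hx hy
    · intro c x _ hx
      rw [mul_smul_comm]
      exact Submodule.smul_mem _ _ hx
  obtain ⟨g, hg, h⟩ := h
  have hgL : algebraMap K L g ≠ 0 := fun h => hg ((map_eq_zero (algebraMap K L)).1 h)
  refine ⟨algebraMap K L g, hgL, fun y => ?_⟩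
  rw [one_div_extS hX hX0, one_div_extS hY hY0]
  constructor
  · exact key (fun x => (h x).1) y
  · intro hy
    have := key (X := Y) (Y := X) (g := g⁻¹) (fun x hx => by
      rw [h, ← mul_assoc, mul_inv_cancel₀ hg, one_mul]; exact hx) _ hy
    rwa [← mul_assoc, map_inv₀, inv_mul_cancel₀ hgL, one_mul] at this

theorem one_ne_bot' : (1 : Submodule R K) ≠ ⊥ := by
  intro h
  have : (1 : K) ∈ (1 : Submodule R K) := Submodule.one_le.1 le_rfl
  rw [h] at this
  exact one_ne_zero ((Submodule.mem_bot R).1 this)

theorem one_fg : (1 : Submodule R K).FG := by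
  rw [Submodule.one_eq_span]; exact Submodule.fg_span_singleton 1

theorem Tors_extS [IsDomain R] [IsFractionRing R K] [IsDomain S] [IsFractionRing S L]
    [Module.Flat R S] {X : Submodule R K} (hX : X.FG) (hX0 : X ≠ ⊥)
    (h : Tors X) : Tors (extS S L X) := by
  obtain ⟨r, hr, h⟩ := h
  refine ⟨r, hr, ?_⟩
  rw [← extS_pow, ← extS_one (R := R) (K := K)]
  exact CEq_extS (hX.pow r) (pow_ne_bot' hX0 r) one_fg one_ne_bot' h

omit [Algebra R L] [IsScalarTower R K L] [IsScalarTower R S L] in
theorem mem_one_of_algebraMap_mem [Algebra R L] [IsScalarTower R K L] [IsScalarTower R S L]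
    [IsDomain R] [IsFractionRing R K] [IsDomain S] [IsFractionRing S L]
    [Module.FaithfullyFlat R S] {x : K} (hx : algebraMap K L x ∈ (1 : Submodule S L)) :
    x ∈ (1 : Submodule R K) := by
  obtain ⟨a, b, hb, rfl⟩ := IsFractionRing.div_surjective (A := R) x
  have hb0 : b ≠ 0 := nonZeroDivisors.ne_zero hb
  have hinjR := IsFractionRing.injective R K
  have hinjS := IsFractionRing.injective S L
  have hbK : algebraMap R K b ≠ 0 := fun h0 => hb0 (hinjR (by rw [h0, map_zero]))
  obtain ⟨s, hs⟩ := Submodule.mem_one.1 hx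
  have hbL : algebraMap K L (algebraMap R K b) ≠ 0 :=
    fun h => hbK ((map_eq_zero (algebraMap K L)).1 h)
  have h1 : algebraMap R S a = algebraMap R S b * s := by
    apply hinjS
    rw [map_mul, hs, map_div₀, ← IsScalarTower.algebraMap_apply R S L,
      ← IsScalarTower.algebraMap_apply R S L, IsScalarTower.algebraMap_apply R K L,
      IsScalarTower.algebraMap_apply R K L b]
    field_simp
  have h2 : a ∈ ((Ideal.span {b}).map (algebraMap R S)).comap (algebraMap R S) := by
    rw [Ideal.mem_comap, Ideal.map_span, Set.image_singleton, Ideal.mem_span_singleton]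
    exact ⟨s, h1⟩
  rw [Ideal.comap_map_eq_self_of_faithfullyFlat, Ideal.mem_span_singleton] at h2
  obtain ⟨c, rfl⟩ := h2
  rw [Submodule.mem_one]
  exact ⟨c, by rw [map_mul]; field_simp⟩

/-- Descent of triviality of a class along a faithfully flat map to a local ring. -/
theorem CEq_descent [IsDomain R] [IsFractionRing R K] [IsDomain S] [IsFractionRing S L]
    [Module.FaithfullyFlat R S] [IsLocalRing S] {X : Submodule R K} (hX : X.FG) (hX0 : X ≠ ⊥)
    (h : CEq (extS S L X) 1) : CEq X 1 := by
  obtain ⟨g, hg, h⟩ := h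
  rw [one_div_extS hX hX0, one_div_one] at h
  have h1 : g⁻¹ ∈ extS S L (1 / X) := by
    rw [h, mul_inv_cancel₀ hg]
    exact Submodule.one_le.1 le_rfl
  -- some element `z` of `1 / X` has `g z` a unit
  have h2 : ∃ z ∈ (1 / X : Submodule R K), ∃ t : S, IsUnit t ∧ g * algebraMap K L z =
      algebraMap S L t := by
    by_contra hcon
    push Not at hcon
    have hall : ∀ y ∈ extS S L (1 / X), ∃ t ∈ IsLocalRing.maximalIdeal S,
        g * y = algebraMap S L t := by
      intro y hy
      refine Submodule.span_induction ?_ ?_ ?_ ?_ hy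
      · rintro _ ⟨z, hz, rfl⟩
        obtain ⟨t, ht⟩ := Submodule.mem_one.1 ((h _).1 (mem_extS_of_mem hz))
        refine ⟨t, ?_, ht.symm⟩
        rw [IsLocalRing.mem_maximalIdeal]
        intro hu
        exact hcon z hz t hu ht.symm
      · exact ⟨0, zero_mem _, by simp⟩
      · rintro x y _ _ ⟨t, ht, hx⟩ ⟨t', ht', hy⟩
        exact ⟨t + t', add_mem ht ht', by rw [mul_add, hx, hy, map_add]⟩
      · rintro c x _ ⟨t, ht, hx⟩
        exact ⟨c * t, Ideal.mul_mem_left _ _ ht, by
          rw [mul_smul_comm, hx, Algebra.smul_def, map_mul]⟩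
    obtain ⟨t, ht, ht'⟩ := hall _ h1
    rw [mul_inv_cancel₀ hg, ← map_one (algebraMap S L)] at ht'
    have := IsFractionRing.injective S L ht'
    rw [← this] at ht
    exact (IsLocalRing.mem_maximalIdeal _).1 ht isUnit_one
  obtain ⟨z, hz, t, ht, hgz⟩ := h2
  have hz0 : z ≠ 0 := by
    rintro rfl
    rw [map_zero, mul_zero] at hgz
    have := IsFractionRing.injective S L ((map_zero (algebraMap S L)).trans hgz)
    rw [← this] at ht
    exact not_isUnit_zero ht
  have hzL : algebraMap K L z ≠ 0 := fun h => hz0 ((map_eq_zero (algebraMap K L)).1 h)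
  refine ⟨z⁻¹, inv_ne_zero hz0, fun y => ?_⟩
  rw [one_div_one]
  constructor
  · intro hy
    apply mem_one_of_algebraMap_mem (S := S) (L := L)
    obtain ⟨s, hs⟩ := Submodule.mem_one.1 ((h _).1 (mem_extS_of_mem hy))
    obtain ⟨u, rfl⟩ := ht
    rw [Submodule.mem_one]
    refine ⟨s * ↑u⁻¹, ?_⟩
    have hu0 : algebraMap S L (u : S) ≠ 0 := by
      rw [← hgz]; exact mul_ne_zero hg hzL
    have hui : algebraMap S L ((u⁻¹ : Sˣ) : S) = (algebraMap S L (u : S))⁻¹ := by
      apply eq_inv_of_mul_eq_one_left
      rw [← map_mul, Units.inv_mul, map_one]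
    rw [map_mul, hs, hui, ← hgz, map_mul, map_inv₀]
    field_simp
  · intro hy
    have h3 := mul_mem_of_mem_one hy hz
    have h4 : z⁻¹ * y * z = y := by field_simp
    rwa [h4] at h3

theorem Tors_descent [IsDomain R] [IsFractionRing R K] [IsDomain S] [IsFractionRing S L]
    [Module.FaithfullyFlat R S] [IsLocalRing S] {X : Submodule R K} (hX : X.FG) (hX0 : X ≠ ⊥)
    (h : Tors (extS S L X)) : Tors X := by
  obtain ⟨r, hr, h⟩ := h
  refine ⟨r, hr, ?_⟩
  rw [← extS_pow] at h
  exact CEq_descent (S := S) (L := L) (hX.pow r) (pow_ne_bot' hX0 r) h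

end

end WFT12
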