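import Pool.Agent.Lib_helper12.WFT.Canon
import Pool.Agent.Lib_helper66.WFT.DualAux

/-!
**(D)**: if the dual of the completion of `R(x)` over a power series ring is torsion in the class
group then `R` is `ℚ`-Gorenstein.
-/

namespace WFT12

open Submodule IsLocalRing Pool.Agent.WFT Pool.Agent.RX

universe u

theorem canon_export (p : ℕ) [Fact p.Prime] (R : Type u) [CommRing R] [IsDomain R]
    [IsNoetherianRing R] [IsLocalRing R] [CharP R p] (hF : FFin R p)
    (e : ℕ) (he : 0 < e) (φ : R →+ R) (hφ : Pool.Agent.WFT.IsCartier (p ^ e) φ) (hφ0 : φ ≠ 0)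
    [IsDomain (AdicCompletion (maximalIdeal (RX R)) (RX R))]
    [IsIntegrallyClosed (AdicCompletion (maximalIdeal (RX R)) (RX R))]
    (d : ℕ) (k : Type u) [Field k] [CharP k p] (hk : FFin k p)
    [Algebra (PS d k) (AdicCompletion (maximalIdeal (RX R)) (RX R))]
    [Module.Finite (PS d k) (AdicCompletion (maximalIdeal (RX R)) (RX R))]
    [Module.Free (PS d k) (AdicCompletion (maximalIdeal (RX R)) (RX R))]
    (hW : ∀ W : Submodule (AdicCompletion (maximalIdeal (RX R)) (RX R))
        (FractionRing (AdicCompletion (maximalIdeal (RX R)) (RX R))),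
      IsDual (PS d k) (AdicCompletion (maximalIdeal (RX R)) (RX R)) W →
      ∃ m : ℕ, 1 ≤ m ∧ PrinPow W m)
    (I : Ideal R) (hI : IsCanonicalIdeal R I) :
    ∃ m : ℕ, 1 ≤ m ∧ PrinPow (IsLocalization.coeSubmodule (FractionRing R) I) m := by
  obtain ⟨n, k', _, _, hinj', hfin', hd'⟩ := hI
  have hinj : Function.Injective
      (algebraMap (PS d k) (AdicCompletion (maximalIdeal (RX R)) (RX R))) :=
    FaithfulSMul.algebraMap_injective _ _
  have hNS : IsNoetherianRing (AdicCompletion (maximalIdeal R) R) :=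
    Pool.Agent.CN.isNoetherianRing_adicCompletion R p
  have hNT : IsNoetherianRing (AdicCompletion (maximalIdeal (RX R)) (RX R)) :=
    Pool.Agent.CN.isNoetherianRing_adicCompletion (RX R) p
  have hCS : CharP (AdicCompletion (maximalIdeal R) R) p :=
    Pool.Agent.CN.charP_adicCompletion R p
  obtain ⟨J, hJ, hJd⟩ := exists_dual_ideal (PS d k)
    (AdicCompletion (maximalIdeal (RX R)) (RX R))
  obtain ⟨m, hm, hJm⟩ := hW _ (isDual_toK hJd)
  -- `k'` is F-finite
  obtain ⟨ι, _, g, hg⟩ := gens_of_ffin R p hF 1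
  have hk' : ∃ (_ : CharP k' p), FFin k' p := by
    refine ffin_coeff p n k' (AdicCompletion (maximalIdeal R) R) hinj'
      (fun i => algebraMap R (AdicCompletion (maximalIdeal R) R) (g i)) ?_
    intro s
    obtain ⟨c, hc⟩ := gen_complete (H35.SFR.isCompl_adicCompletion (R := R))
      (q := p ^ 1) (pow_pos (Fact.out : p.Prime).pos 1)
      (fun x y => add_pow_char_pow x y p 1) (fun x y => add_pow_char_pow x y p 1) g hg s
    refine ⟨c, ?_⟩
    rw [pow_one] at hc
    exact hc
  obtain ⟨_, hk'⟩ := hk'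
  obtain ⟨ψ, hψ, hψr, hψx⟩ := exists_cart R p e φ hφ
  have hx : IsUnit (x R) := by
    have := (isUnit_aeval_iff R (Polynomial.X)).2 ⟨1, by
      rw [Polynomial.coeff_X_one]
      exact fun h => (mem_maximalIdeal (1 : R)).1 h isUnit_one⟩
    rwa [Polynomial.aeval_X] at this
  exact canon_core p R hF (RX R) (ffin R p hF) (map_maximalIdeal R) (x R) hx (exists_frac R) e he
    φ hφ hφ0 ψ hψ hψr hψx d k hk hinj J hJ hJd
    ⟨m, hm, (prinPow_iff (toK_fg J) m).1 hJm⟩ I n k' hk' hinj' hd'

end WFT12
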