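import Pool.Agent.Lib_helper12.WFT.ClassEq

/-!
Extension of a `q`-Cartier map `φ : T → T`, `φ (x ^ q * y) = x * φ y`, to the fraction field,
and the fractional ideal `DD φ = {h : φ (h T) ⊆ T}`.
-/

namespace WFT12

open Submodule

variable {T : Type*} [CommRing T] [IsDomain T]

/-- `φ (x ^ q * y) = x * φ y`. -/
def IsCartierMap (q : ℕ) {M N : Type*} [CommRing M] [CommRing N] (f : N → M)
    (φ : M →+ N) : Prop := ∀ (x : N) (y : M), φ (f x ^ q * y) = x * φ y

/-- `φ (x ^ q * y) = x * φ y`. -/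
def IsCar (q : ℕ) {M : Type*} [CommRing M] (φ : M →+ M) : Prop :=
  ∀ x y : M, φ (x ^ q * y) = x * φ y

variable (K : Type*) [Field K] [Algebra T K] [IsFractionRing T K]

/-- the value `φ (b ^ (q-1) * a) / b` of the extension at `a / b` -/
noncomputable def extFun (q : ℕ) (φ : T →+ T) (h : K) : K :=
  algebraMap T K (φ ((IsLocalization.sec (nonZeroDivisors T) h).2 ^ (q - 1) *
    (IsLocalization.sec (nonZeroDivisors T) h).1)) /
    algebraMap T K (IsLocalization.sec (nonZeroDivisors T) h).2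

variable {K}

omit [IsDomain T] [IsFractionRing T K] in
theorem car_den {q : ℕ} (hq : 0 < q) {φ : T →+ T} (hφ : IsCar q φ) (a b c : T) :
    φ ((b * c) ^ (q - 1) * (a * c)) = c * φ (b ^ (q - 1) * a) := by
  have h1 : (b * c) ^ (q - 1) * (a * c) = c ^ q * (b ^ (q - 1) * a) := by
    obtain ⟨n, rfl⟩ : ∃ n, q = n + 1 := ⟨q - 1, by omega⟩
    simp only [Nat.add_sub_cancel]
    rw [mul_pow, pow_succ c n]
    ring
  rw [h1, hφ]

theorem extFun_eq {q : ℕ} (hq : 0 < q) {φ : T →+ T} (hφ : IsCar q φ) {h : K} {a b : T}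
    (hb : b ≠ 0) (hab : h * algebraMap T K b = algebraMap T K a) :
    extFun K q φ h = algebraMap T K (φ (b ^ (q - 1) * a)) / algebraMap T K b := by
  unfold extFun
  set a' := (IsLocalization.sec (nonZeroDivisors T) h).1 with ha'
  set b' : T := ((IsLocalization.sec (nonZeroDivisors T) h).2 : T) with hb'
  have hb'0 : b' ≠ 0 := nonZeroDivisors.coe_ne_zero _
  have hsec : h * algebraMap T K b' = algebraMap T K a' :=
    IsLocalization.sec_spec (nonZeroDivisors T) h
  have hinj := IsFractionRing.injective T K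
  have hbK : algebraMap T K b ≠ 0 := fun h0 => hb (hinj (by rw [h0, map_zero]))
  have hb'K : algebraMap T K b' ≠ 0 := fun h0 => hb'0 (hinj (by rw [h0, map_zero]))
  have hcross : a' * b = a * b' := by
    apply hinj
    rw [map_mul, map_mul, ← hsec, ← hab]; ring
  rw [div_eq_div_iff hb'K hbK, ← map_mul, ← map_mul]
  congr 1
  have h1 := car_den hq hφ a' b' b
  have h2 := car_den hq hφ a b b'
  rw [mul_comm _ b, mul_comm _ b', ← h1, ← h2, hcross, mul_comm b b']

/-- The extension of a Cartier map to the fraction field. -/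
noncomputable def extK (q : ℕ) (hq : 0 < q) (φ : T →+ T) (hφ : IsCar q φ) : K →+ K where
  toFun := extFun K q φ
  map_zero' := by
    rw [extFun_eq hq hφ (a := 0) (b := 1) one_ne_zero (by simp)]
    simp
  map_add' := by
    intro x y
    obtain ⟨a, b, hb, rfl⟩ := IsFractionRing.div_surjective (A := T) x
    obtain ⟨c, d, hd, rfl⟩ := IsFractionRing.div_surjective (A := T) y
    have hb0 : b ≠ 0 := nonZeroDivisors.ne_zero hb
    have hd0 : d ≠ 0 := nonZeroDivisors.ne_zero hd
    have hinj := IsFractionRing.injective T K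
    have hbK : algebraMap T K b ≠ 0 := fun h0 => hb0 (hinj (by rw [h0, map_zero]))
    have hdK : algebraMap T K d ≠ 0 := fun h0 => hd0 (hinj (by rw [h0, map_zero]))
    have e1 := extFun_eq hq hφ (h := algebraMap T K a / algebraMap T K b)
      (a := a * d) (b := b * d) (mul_ne_zero hb0 hd0) (by rw [map_mul, map_mul]; field_simp)
    have e2 := extFun_eq hq hφ (h := algebraMap T K c / algebraMap T K d)
      (a := c * b) (b := b * d) (mul_ne_zero hb0 hd0) (by rw [map_mul, map_mul]; field_simp)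
    have e3 := extFun_eq hq hφ
      (h := algebraMap T K a / algebraMap T K b + algebraMap T K c / algebraMap T K d)
      (a := a * d + c * b) (b := b * d) (mul_ne_zero hb0 hd0)
      (by rw [map_mul, map_add, map_mul, map_mul]; field_simp)
    rw [e1, e2, e3, ← add_div, ← map_add, ← map_add, mul_add]

theorem extK_eq {q : ℕ} (hq : 0 < q) {φ : T →+ T} (hφ : IsCar q φ) {h : K} {a b : T}
    (hb : b ≠ 0) (hab : h * algebraMap T K b = algebraMap T K a) :
    extK q hq φ hφ h * algebraMap T K b = algebraMap T K (φ (b ^ (q - 1) * a)) := by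
  have hinj := IsFractionRing.injective T K
  have hbK : algebraMap T K b ≠ 0 := fun h0 => hb (hinj (by rw [h0, map_zero]))
  show extFun K q φ h * _ = _
  rw [extFun_eq hq hφ hb hab, div_mul_cancel₀ _ hbK]

theorem extK_algebraMap {q : ℕ} (hq : 0 < q) {φ : T →+ T} (hφ : IsCar q φ) (a : T) :
    extK q hq φ hφ (algebraMap T K a) = algebraMap T K (φ a) := by
  have := extK_eq (K := K) hq hφ (h := algebraMap T K a) (a := a) (b := 1) one_ne_zero (by simp)
  simpa using this

theorem extK_car {q : ℕ} (hq : 0 < q) {φ : T →+ T} (hφ : IsCar q φ) :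
    IsCar q (extK (K := K) q hq φ hφ) := by
  intro x y
  obtain ⟨a, b, hb, rfl⟩ := IsFractionRing.div_surjective (A := T) x
  obtain ⟨c, d, hd, rfl⟩ := IsFractionRing.div_surjective (A := T) y
  have hb0 : b ≠ 0 := nonZeroDivisors.ne_zero hb
  have hd0 : d ≠ 0 := nonZeroDivisors.ne_zero hd
  have hinj := IsFractionRing.injective T K
  have hbK : algebraMap T K b ≠ 0 := fun h0 => hb0 (hinj (by rw [h0, map_zero]))
  have hdK : algebraMap T K d ≠ 0 := fun h0 => hd0 (hinj (by rw [h0, map_zero]))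
  have h1 := extK_eq (K := K) hq hφ (h := (algebraMap T K a / algebraMap T K b) ^ q *
    (algebraMap T K c / algebraMap T K d)) (a := a ^ q * c) (b := b ^ q * d)
    (mul_ne_zero (pow_ne_zero _ hb0) hd0) (by
      rw [map_mul, map_mul, map_pow, map_pow, div_pow]; field_simp)
  have h2 := extK_eq (K := K) hq hφ (h := algebraMap T K c / algebraMap T K d) (a := c) (b := d)
    hd0 (by field_simp)
  have h3 : φ ((b ^ q * d) ^ (q - 1) * (a ^ q * c)) = (b ^ (q - 1) * a) * φ (d ^ (q - 1) * c) := by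
    rw [← hφ]
    congr 1
    ring
  rw [h3, map_mul (algebraMap T K) (b ^ (q - 1) * a), map_mul (algebraMap T K) (b ^ (q - 1)) a,
    ← h2, map_mul (algebraMap T K) (b ^ q) d, map_pow, map_pow] at h1
  have hbq : algebraMap T K b ^ q ≠ 0 := pow_ne_zero _ hbK
  apply mul_right_cancel₀ (mul_ne_zero hbq hdK)
  rw [h1]
  obtain ⟨n, rfl⟩ : ∃ n, q = n + 1 := ⟨q - 1, by omega⟩
  simp only [Nat.add_sub_cancel]
  field_simp
  ring

/-- `DD φ = {h : φ (h T) ⊆ T}`. -/
noncomputable def DD (q : ℕ) (hq : 0 < q) (φ : T →+ T) (hφ : IsCar q φ) : Submodule T K where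
  carrier := {h | ∀ t : T, extK q hq φ hφ (h * algebraMap T K t) ∈ (1 : Submodule T K)}
  zero_mem' := by intro t; simp
  add_mem' := by
    intro a b ha hb t
    rw [add_mul, map_add]
    exact add_mem (ha t) (hb t)
  smul_mem' := by
    intro c x hx t
    have : c • x * algebraMap T K t = x * algebraMap T K (c * t) := by
      rw [Algebra.smul_def, map_mul]; ring
    rw [this]
    exact hx _

theorem mem_DD {q : ℕ} {hq : 0 < q} {φ : T →+ T} {hφ : IsCar q φ} {h : K} :
    h ∈ DD (K := K) q hq φ hφ ↔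
      ∀ t : T, extK q hq φ hφ (h * algebraMap T K t) ∈ (1 : Submodule T K) := Iff.rfl

theorem mem_DD_iff {q : ℕ} {hq : 0 < q} {φ : T →+ T} {hφ : IsCar q φ} {h : K} {a b : T}
    (hb : b ≠ 0) (hab : h * algebraMap T K b = algebraMap T K a) :
    h ∈ DD (K := K) q hq φ hφ ↔ ∀ t : T, b ∣ φ (b ^ (q - 1) * (a * t)) := by
  have hinj := IsFractionRing.injective T K
  have hbK : algebraMap T K b ≠ 0 := fun h0 => hb (hinj (by rw [h0, map_zero]))
  rw [mem_DD]
  refine forall_congr' fun t => ?_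
  have h1 := extK_eq (K := K) hq hφ (h := h * algebraMap T K t) (a := a * t) (b := b) hb (by
    rw [map_mul, ← hab]; ring)
  rw [Submodule.mem_one]
  constructor
  · rintro ⟨y, hy⟩
    refine ⟨y, hinj ?_⟩
    rw [← h1, ← hy, map_mul, mul_comm]
  · rintro ⟨y, hy⟩
    refine ⟨y, ?_⟩
    apply mul_right_cancel₀ hbK
    rw [h1, hy, map_mul, mul_comm]

theorem one_mem_DD {q : ℕ} {hq : 0 < q} {φ : T →+ T} {hφ : IsCar q φ} :
    (1 : K) ∈ DD (K := K) q hq φ hφ := by
  intro t
  rw [one_mul, extK_algebraMap, Submodule.mem_one]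
  exact ⟨_, rfl⟩

/-- `DD φ` is divisorial. -/
theorem DD_divisorial [IsNoetherianRing T] [IsIntegrallyClosed T]
    {q : ℕ} {hq : 0 < q} {φ : T →+ T} {hφ : IsCar q φ}
    (hfg : (DD (K := K) q hq φ hφ).FG) {h : K} {N : Submodule T K}
    (hN1 : N ≤ 1) (hN : (1 / N : Submodule T K) = 1)
    (hh : ∀ n ∈ N, h * n ∈ DD (K := K) q hq φ hφ) : h ∈ DD (K := K) q hq φ hφ := by
  intro t
  have : extK q hq φ hφ (h * algebraMap T K t) ∈ (1 / N : Submodule T K) := by
    rw [mem_one_div]
    intro n hn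
    obtain ⟨n', rfl⟩ := Submodule.mem_one.1 (hN1 hn)
    have h1 := hh _ hn (n' ^ (q - 1) * t)
    have h2 : h * algebraMap T K n' * algebraMap T K (n' ^ (q - 1) * t) =
        (algebraMap T K n') ^ q * (h * algebraMap T K t) := by
      obtain ⟨m, rfl⟩ : ∃ n, q = n + 1 := ⟨q - 1, by omega⟩
      simp only [Nat.add_sub_cancel]
      rw [map_mul, map_pow, pow_succ]; ring
    rw [h2, extK_car hq hφ] at h1
    rwa [mul_comm] at h1
  rwa [hN] at this

end WFT12
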