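import Pool.Agent.Lib_helper12.WFT.BaseChange
import Pool.Agent.Lib_helper35.SFR.ExtAdic

/-!
Generators over the `q`-th powers pass to the completion.
-/

namespace WFT12

open IsLocalRing H35.SFR

theorem gen_small {R : Type*} [CommRing R] [IsNoetherianRing R] {q : ℕ}
    (hq : 0 < q) (hadd : ∀ x y : R, (x + y) ^ q = x ^ q + y ^ q) {κ : Type*} [Fintype κ]
    (e : κ → R) (he : ∀ r : R, ∃ c : κ → R, r = ∑ i, c i ^ q * e i) (I : Ideal R) (n : ℕ) :
    ∃ N, ∀ r ∈ I ^ N, ∃ c : κ → R, (∀ i, c i ∈ I ^ n) ∧ r = ∑ i, c i ^ q * e i := by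
  set J : Ideal R := Ideal.span ((fun g => g ^ q) '' (I ^ n : Ideal R)) with hJ
  have hrad : I ^ n ≤ J.radical := by
    intro g hg
    exact ⟨q, Ideal.subset_span ⟨g, hg, rfl⟩⟩
  obtain ⟨k, hk⟩ := Ideal.exists_pow_le_of_le_radical_of_fg hrad (IsNoetherian.noetherian _)
  refine ⟨n * k, fun x hx => ?_⟩
  rw [pow_mul] at hx
  have hxJ := hk hx
  have key : ∀ y ∈ J, ∃ c : κ → R, (∀ i, c i ∈ I ^ n) ∧ y = ∑ i, c i ^ q * e i := by
    intro y hy
    refine Submodule.span_induction ?_ ?_ ?_ ?_ hy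
    · rintro _ ⟨g, hg, rfl⟩
      obtain ⟨d, hd⟩ := he 1
      refine ⟨fun i => g * d i, fun i => Ideal.mul_mem_right _ _ hg, ?_⟩
      show g ^ q = _
      conv_lhs => rw [← mul_one (g ^ q), hd, Finset.mul_sum]
      refine Finset.sum_congr rfl fun i _ => ?_
      rw [mul_pow, mul_assoc]
    · exact ⟨fun _ => 0, fun _ => zero_mem _, by simp [zero_pow hq.ne']⟩
    · rintro x y _ _ ⟨c, hc, rfl⟩ ⟨d, hd, rfl⟩
      refine ⟨fun i => c i + d i, fun i => add_mem (hc i) (hd i), ?_⟩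
      rw [← Finset.sum_add_distrib]
      refine Finset.sum_congr rfl fun i _ => ?_
      rw [hadd, add_mul]
    · rintro a x _ ⟨c, hc, rfl⟩
      choose d hd using fun i => he (a * e i)
      refine ⟨fun j => ∑ i, c i * d i j, fun j => sum_mem fun i _ => Ideal.mul_mem_right _ _ (hc i),
        ?_⟩
      simp only [sum_pow_q hq hadd, Finset.sum_mul, smul_eq_mul]
      rw [Finset.sum_comm, Finset.mul_sum]
      refine Finset.sum_congr rfl fun i _ => ?_
      have h1 : a * (c i ^ q * e i) = c i ^ q * (a * e i) := by ring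
      rw [h1, hd i, Finset.mul_sum]
      refine Finset.sum_congr rfl fun j _ => ?_
      rw [mul_pow, mul_assoc]
  exact key x hxJ

theorem gen_complete {R S : Type*} [CommRing R] [CommRing S] [IsLocalRing R] [IsLocalRing S]
    [IsNoetherianRing R] {ι : R →+* S} (h : IsCompl ι) {q : ℕ} (hq : 0 < q)
    (haddR : ∀ x y : R, (x + y) ^ q = x ^ q + y ^ q)
    (haddS : ∀ x y : S, (x + y) ^ q = x ^ q + y ^ q)
    {κ : Type*} [Fintype κ] (e : κ → R) (he : ∀ r : R, ∃ c : κ → R, r = ∑ i, c i ^ q * e i)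
    (s : S) : ∃ c : κ → S, s = ∑ i, c i ^ q * ι (e i) := by
  have := h.complete
  have hN : ∀ n, ∃ N, n ≤ N ∧ ∀ r ∈ maximalIdeal R ^ N, ∃ c : κ → R,
      (∀ i, c i ∈ maximalIdeal R ^ n) ∧ r = ∑ i, c i ^ q * e i := by
    intro n
    obtain ⟨N, hN⟩ := gen_small hq haddR e he (maximalIdeal R) n
    exact ⟨max n N, le_max_left _ _, fun r hr => hN r (Ideal.pow_le_pow_right (le_max_right _ _) hr)⟩
  choose N0 hN0 hN0' using hN
  set N : ℕ → ℕ := fun n => ∑ i ∈ Finset.range (n + 1), N0 i with hNdef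
  have hmono : Monotone N := by
    intro a b hab
    exact Finset.sum_le_sum_of_subset (Finset.range_mono (by omega))
  have hNN : ∀ n, N0 n ≤ N n := fun n =>
    Finset.single_le_sum (f := N0) (fun _ _ => Nat.zero_le _) (Finset.self_mem_range_succ n)
  choose ρ hρ using fun n => h.dense (N n) s
  obtain ⟨a, ha⟩ := he (ρ 0)
  have hdiff : ∀ n, ρ (n + 1) - ρ n ∈ maximalIdeal R ^ (N0 n) := by
    intro n
    apply h.comap
    have h1 : ι (ρ (n + 1) - ρ n) = (s - ι (ρ n)) - (s - ι (ρ (n + 1))) := by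
      rw [map_sub]; ring
    rw [h1]
    refine sub_mem (Ideal.pow_le_pow_right (hNN n) (hρ n))
      (Ideal.pow_le_pow_right ((hNN n).trans (hmono (Nat.le_succ n))) (hρ (n + 1)))
  choose c hc hc' using fun n => hN0' n _ (hdiff n)
  set Cf : κ → ℕ → R := fun i n => a i + ∑ k ∈ Finset.range n, c k i with hCf
  have hCs : ∀ i n, Cf i (n + 1) = Cf i n + c n i := by
    intro i n
    simp only [hCf, Finset.sum_range_succ]; ring
  have hρC : ∀ n, ρ n = ∑ i, Cf i n ^ q * e i := by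
    intro n
    induction n with
    | zero => simpa [hCf] using ha
    | succ n ih =>
      have h1 : ρ (n + 1) = ρ n + (ρ (n + 1) - ρ n) := by ring
      rw [h1, hc' n, ih, ← Finset.sum_add_distrib]
      refine Finset.sum_congr rfl fun i _ => ?_
      rw [hCs, haddR (Cf i n) (c n i), add_mul]
  have hCd : ∀ i m n, m ≤ n → Cf i n - Cf i m ∈ maximalIdeal R ^ m := by
    intro i m n hmn
    induction n, hmn using Nat.le_induction with
    | base => simp
    | succ n hmn ih =>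
      have h1 : Cf i (n + 1) - Cf i m = (Cf i n - Cf i m) + c n i := by rw [hCs]; ring
      rw [h1]
      exact add_mem ih (Ideal.pow_le_pow_right hmn (hc n i))
  have hlim : ∀ i, ∃ L : S, ∀ n, ι (Cf i n) - L ∈ maximalIdeal S ^ n := by
    intro i
    refine prec (maximalIdeal S) (fun n => ι (Cf i n)) ?_
    intro m n hmn
    rw [← map_sub, ← neg_sub, map_neg]
    exact neg_mem (h.map m _ (hCd i m n hmn))
  choose L hL using hlim
  refine ⟨L, ?_⟩
  apply haus_eq (maximalIdeal S)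
  intro n
  have h1 : s - ∑ i, L i ^ q * ι (e i) = (s - ι (ρ n)) +
      ∑ i, (ι (Cf i n) ^ q - L i ^ q) * ι (e i) := by
    have h2 : ι (ρ n) = ∑ i, ι (Cf i n) ^ q * ι (e i) := by
      rw [hρC n, map_sum]
      refine Finset.sum_congr rfl fun i _ => ?_
      rw [map_mul, map_pow]
    simp only [sub_mul, Finset.sum_sub_distrib]
    rw [h2]; ring
  rw [h1]
  refine add_mem (Ideal.pow_le_pow_right ((hN0 n).trans (hNN n)) (hρ n)) (sum_mem fun i _ => ?_)
  refine Ideal.mul_mem_right _ _ ?_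
  obtain ⟨w, hw⟩ := sub_dvd_pow_sub_pow (ι (Cf i n)) (L i) q
  rw [hw]
  exact Ideal.mul_mem_right _ _ (hL i n)

end WFT12
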