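import Pool.Agent.Lib_helper12.WFT.RuDD
import Pool.Agent.Lib_helper12.WFT.GenCompl
import Pool.Agent.WFT.Defs

/-!
Transfer of torsion between `R` and `S` for the standard fraction rings.
-/

namespace WFT12

open Submodule IsLocalRing Pool.Agent.WFT

section

variable {R K : Type*} [CommRing R] [IsDomain R] [Field K] [Algebra R K] [IsFractionRing R K]

/-- `DD φ` is finitely generated. -/
theorem DD_fg [IsNoetherianRing R] {q : ℕ} (hq : 0 < q)
    (haddR : ∀ x y : R, (x + y) ^ q = x ^ q + y ^ q)
    {φ : R →+ R} (hφ : IsCar q φ) (hφ0 : φ ≠ 0) {ι : Type*} [Fintype ι] (e : ι → R)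
    (he : ∀ r : R, ∃ c : ι → R, r = ∑ i, c i ^ q * e i) :
    (DD (K := K) q hq φ hφ).FG := by
  classical
  obtain ⟨e', he'⟩ := exists_dual hq (hadd_frac (R := R) (K := K) haddR)
    (extK_car (K := K) hq hφ) (extK_ne_zero hq hφ hφ0)
    (fun i => algebraMap R K (e i)) (span_frac hq e he)
  have hle : DD (K := K) q hq φ hφ ≤ Submodule.span R (Set.range e') := by
    intro h hh
    rw [he' h]
    refine Submodule.sum_mem _ fun i _ => ?_
    obtain ⟨r, hr⟩ := Submodule.mem_one.1 (hh (e i))
    rw [← hr, ← map_pow, ← Algebra.smul_def]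
    exact Submodule.smul_mem _ _ (Submodule.subset_span ⟨i, rfl⟩)
  have hfg : (Submodule.span R (Set.range e')).FG := Submodule.fg_span (Set.finite_range e')
  have h1 : IsNoetherian R (Submodule.span R (Set.range e')) :=
    isNoetherian_of_fg_of_noetherian _ hfg
  exact (isNoetherian_submodule.1 h1) _ hle

theorem DD_ne_bot {q : ℕ} {hq : 0 < q} {φ : R →+ R} {hφ : IsCar q φ} :
    DD (K := K) q hq φ hφ ≠ ⊥ := by
  intro h
  have := one_mem_DD (K := K) (hq := hq) (hφ := hφ)
  rw [h, Submodule.mem_bot] at this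
  exact one_ne_zero this

theorem toK_fg [IsNoetherianRing R] (I : Ideal R) : (toK K I).FG :=
  Submodule.FG.map _ (IsNoetherian.noetherian I)

theorem toK_ne_bot {I : Ideal R} (hI : I ≠ ⊥) : toK K I ≠ ⊥ := by
  obtain ⟨x, hx, hx0⟩ := Submodule.exists_mem_ne_zero_of_ne_bot hI
  intro h
  have h1 : algebraMap R K x ∈ toK K I := Submodule.mem_map_of_mem (f := Algebra.linearMap R K) hx
  rw [h, Submodule.mem_bot] at h1
  exact hx0 (IsFractionRing.injective R K (by rw [h1, map_zero]))

/-- `PrinPow` and `CEq` -/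
theorem prinPow_iff {W : Submodule R K} (hW : W.FG) (m : ℕ) :
    PrinPow W m ↔ CEq (W ^ m) 1 := by
  have hne : (1 / W ^ m : Submodule R K) ≠ ⊥ := one_div_ne_bot (hW.pow m)
  constructor
  · rintro ⟨c, hc⟩
    have hc0 : c ≠ 0 := by
      rintro rfl
      apply hne
      rw [hc, Submodule.span_singleton_eq_bot]
    refine ⟨c⁻¹, inv_ne_zero hc0, fun x => ?_⟩
    rw [hc, one_div_one, Submodule.mem_span_singleton, Submodule.mem_one]
    constructor
    · rintro ⟨a, rfl⟩
      exact ⟨a, by rw [Algebra.smul_def]; field_simp⟩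
    · rintro ⟨a, ha⟩
      exact ⟨a, by rw [Algebra.smul_def, ha]; field_simp⟩
  · rintro ⟨g, hg, h⟩
    refine ⟨g⁻¹, ?_⟩
    ext x
    rw [h, one_div_one, Submodule.mem_span_singleton, Submodule.mem_one]
    constructor
    · rintro ⟨a, ha⟩
      exact ⟨a, by rw [Algebra.smul_def, ha]; field_simp⟩
    · rintro ⟨a, rfl⟩
      exact ⟨a, by rw [Algebra.smul_def]; field_simp⟩

end

section

variable {R S : Type*} [CommRing R] [IsDomain R] [CommRing S] [IsDomain S] [IsLocalRing S]
  [Algebra R S] [Module.FaithfullyFlat R S]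

theorem injective_ff : Function.Injective (algebraMap R S) := by
  rw [injective_iff_map_eq_zero]
  intro a ha
  have h1 : a ∈ ((⊥ : Ideal R).map (algebraMap R S)).comap (algebraMap R S) := by
    rw [Ideal.mem_comap, ha]; exact zero_mem _
  rw [Ideal.comap_map_eq_self_of_faithfullyFlat] at h1
  exact (Submodule.mem_bot R).1 h1

/-- transfer of torsion for an arbitrary fractional ideal, abstract form -/
theorem tors_DD_iff [IsNoetherianRing R] {q : ℕ} (hq : 0 < q)
    (haddR : ∀ x y : R, (x + y) ^ q = x ^ q + y ^ q)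
    (haddS : ∀ x y : S, (x + y) ^ q = x ^ q + y ^ q)
    {φ : R →+ R} (hφ : IsCar q φ) (hφ0 : φ ≠ 0) {φS : S →+ S} (hφS : IsCar q φS)
    {ι J : Type*} [Fintype ι] [Fintype J] [DecidableEq J] (e : ι → R)
    (he : ∀ r : R, ∃ c : ι → R, r = ∑ i, c i ^ q * e i)
    (b b' : J → S) (j₀ : J) (hj₀ : b' j₀ = 1)
    (hb : ∀ (r : R) (j l : J), φS (algebraMap R S r * (b' j * b l)) =
      if j = l then algebraMap R S (φ r) else 0)
    (hS : ∀ s : S, ∃ c : ι → J → S, s = ∑ i, ∑ j, c i j ^ q * (algebraMap R S (e i) * b j)) :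
    Tors (DD (K := FractionRing S) q hq φS hφS) ↔ Tors (DD (K := FractionRing R) q hq φ hφ) := by
  let g : FractionRing R →+* FractionRing S :=
    IsFractionRing.map (K := FractionRing R) (L := FractionRing S) (injective_ff (R := R) (S := S))
  letI : Algebra (FractionRing R) (FractionRing S) := g.toAlgebra
  haveI : IsScalarTower R (FractionRing R) (FractionRing S) := by
    refine IsScalarTower.of_algebraMap_eq fun r => ?_
    rw [RingHom.algebraMap_toAlgebra, IsScalarTower.algebraMap_apply R S (FractionRing S)]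
    exact (IsLocalization.map_eq _ r).symm
  rw [DD_extS (K := FractionRing R) hq haddR haddS hφ hφ0 hφS e he b b' j₀ hj₀ hb hS]
  have hfg : (DD (K := FractionRing R) q hq φ hφ).FG := DD_fg hq haddR hφ hφ0 e he
  exact ⟨Tors_descent hfg DD_ne_bot, Tors_extS hfg DD_ne_bot⟩

/-- transfer of torsion for ideals -/
theorem tors_ideal_iff [IsNoetherianRing R] {I : Ideal R} (hI : I ≠ ⊥) :
    Tors (toK (FractionRing S) (I.map (algebraMap R S))) ↔ Tors (toK (FractionRing R) I) := by
  let g : FractionRing R →+* FractionRing S :=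
    IsFractionRing.map (K := FractionRing R) (L := FractionRing S) (injective_ff (R := R) (S := S))
  letI : Algebra (FractionRing R) (FractionRing S) := g.toAlgebra
  haveI : IsScalarTower R (FractionRing R) (FractionRing S) := by
    refine IsScalarTower.of_algebraMap_eq fun r => ?_
    rw [RingHom.algebraMap_toAlgebra, IsScalarTower.algebraMap_apply R S (FractionRing S)]
    exact (IsLocalization.map_eq _ r).symm
  have h1 : toK (FractionRing S) (I.map (algebraMap R S)) =
      extS S (FractionRing S) (toK (FractionRing R) I) := by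
    apply le_antisymm
    · rintro _ ⟨s, hs, rfl⟩
      rw [Algebra.linearMap_apply]
      have hs' : s ∈ Ideal.map (algebraMap R S) I := hs
      refine Submodule.span_induction (p := fun s _ => algebraMap S (FractionRing S) s ∈
        extS S (FractionRing S) (toK (FractionRing R) I)) ?_ ?_ ?_ ?_ hs'
      · rintro _ ⟨r, hr, rfl⟩
        rw [← IsScalarTower.algebraMap_apply R S (FractionRing S),
          IsScalarTower.algebraMap_apply R (FractionRing R) (FractionRing S)]
        exact mem_extS_of_mem ⟨r, hr, rfl⟩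
      · rw [map_zero]; exact zero_mem _
      · intro x y _ _ hx hy
        rw [map_add]; exact add_mem hx hy
      · intro a x _ hx
        rw [smul_eq_mul, map_mul, ← Algebra.smul_def]
        exact Submodule.smul_mem _ _ hx
    · rw [extS, Submodule.span_le]
      rintro _ ⟨_, ⟨r, hr, rfl⟩, rfl⟩
      refine ⟨algebraMap R S r, Ideal.mem_map_of_mem _ hr, ?_⟩
      rw [Algebra.linearMap_apply, Algebra.linearMap_apply,
        ← IsScalarTower.algebraMap_apply R S (FractionRing S),
        IsScalarTower.algebraMap_apply R (FractionRing R) (FractionRing S)]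
  rw [h1]
  exact ⟨Tors_descent (toK_fg I) (toK_ne_bot hI), Tors_extS (toK_fg I) (toK_ne_bot hI)⟩

end

section

open H35.SFR

variable {R S : Type*} [CommRing R] [IsDomain R] [CommRing S] [IsDomain S] [IsLocalRing S]
  [Algebra R S]

/-- completion -/
theorem tors_DD_compl_iff [IsLocalRing R] [IsNoetherianRing R] [Module.FaithfullyFlat R S]
    (hC : IsCompl (algebraMap R S)) {q : ℕ} (hq : 0 < q)
    (haddR : ∀ x y : R, (x + y) ^ q = x ^ q + y ^ q)
    (haddS : ∀ x y : S, (x + y) ^ q = x ^ q + y ^ q)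
    {φ : R →+ R} (hφ : IsCar q φ) (hφ0 : φ ≠ 0) {φS : S →+ S} (hφS : IsCar q φS)
    {ι : Type*} [Fintype ι] (e : ι → R)
    (he : ∀ r : R, ∃ c : ι → R, r = ∑ i, c i ^ q * e i)
    (hext : ∀ r, φS (algebraMap R S r) = algebraMap R S (φ r)) :
    Tors (DD (K := FractionRing S) q hq φS hφS) ↔ Tors (DD (K := FractionRing R) q hq φ hφ) := by
  refine tors_DD_iff hq haddR haddS hφ hφ0 hφS e he (J := Unit) (fun _ => 1) (fun _ => 1) ()
    rfl ?_ ?_
  · intro r j l
    rw [if_pos (Subsingleton.elim _ _), one_mul, mul_one, hext]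
  · intro s
    obtain ⟨c, hc⟩ := gen_complete hC hq haddR haddS e he s
    refine ⟨fun i _ => c i, ?_⟩
    rw [hc]
    refine Finset.sum_congr rfl fun i _ => ?_
    simp

/-- `R → R(x)` -/
theorem tors_DD_Ru_iff [IsNoetherianRing R] [Module.FaithfullyFlat R S] {q : ℕ} (hq : 0 < q)
    (haddR : ∀ x y : R, (x + y) ^ q = x ^ q + y ^ q)
    (haddS : ∀ x y : S, (x + y) ^ q = x ^ q + y ^ q)
    {φ : R →+ R} (hφ : IsCar q φ) (hφ0 : φ ≠ 0) {φS : S →+ S} (hφS : IsCar q φS)
    {ι : Type*} [Fintype ι] (e : ι → R)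
    (he : ∀ r : R, ∃ c : ι → R, r = ∑ i, c i ^ q * e i)
    (x : S) (hx : IsUnit x)
    (hfrac : ∀ y : S, ∃ f g : Polynomial R, IsUnit (Polynomial.aeval x g) ∧
      y * Polynomial.aeval x g = Polynomial.aeval x f)
    (hψ : ∀ (r : R) (i : ℕ), φS (algebraMap R S r * x ^ i) =
      if q ∣ i then algebraMap R S (φ r) * x ^ (i / q) else 0) :
    Tors (DD (K := FractionRing S) q hq φS hφS) ↔ Tors (DD (K := FractionRing R) q hq φ hφ) := by
  let g : FractionRing R →+* FractionRing S :=
    IsFractionRing.map (K := FractionRing R) (L := FractionRing S) (injective_ff (R := R) (S := S))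
  letI : Algebra (FractionRing R) (FractionRing S) := g.toAlgebra
  haveI : IsScalarTower R (FractionRing R) (FractionRing S) := by
    refine IsScalarTower.of_algebraMap_eq fun r => ?_
    rw [RingHom.algebraMap_toAlgebra, IsScalarTower.algebraMap_apply R S (FractionRing S)]
    exact (IsLocalization.map_eq _ r).symm
  rw [DD_Ru (K := FractionRing R) hq haddR haddS hφ hφ0 hφS e he x hx hfrac hψ]
  have hfg : (DD (K := FractionRing R) q hq φ hφ).FG := DD_fg hq haddR hφ hφ0 e he
  exact ⟨Tors_descent hfg DD_ne_bot, Tors_extS hfg DD_ne_bot⟩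

end

end WFT12
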