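import Pool.Agent.Lib_helper12.WFT.BaseChange

/-!
`DD` for the extension `R → R(x)` (localisation of `R[x]`).
-/

namespace WFT12

open Polynomial

section

variable {R S : Type*} [CommRing R] [CommRing S] [Algebra R S]

/-- generators of `R(x)` over its `q`-th powers -/
theorem gen_Ru {q : ℕ} (hq : 0 < q) (haddS : ∀ x y : S, (x + y) ^ q = x ^ q + y ^ q)
    {ι : Type*} [Fintype ι] (e : ι → R) (he : ∀ r : R, ∃ c : ι → R, r = ∑ i, c i ^ q * e i)
    (x : S)
    (hfrac : ∀ y : S, ∃ f g : R[X], IsUnit (aeval x g) ∧ y * aeval x g = aeval x f) (s : S) :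
    ∃ c : ι → Fin q → S, s = ∑ i, ∑ j, c i j ^ q * (algebraMap R S (e i) * x ^ (j : ℕ)) := by
  classical
  -- the set of sums of the required shape
  let P : S → Prop := fun s => ∃ c : ι → Fin q → S,
    s = ∑ i, ∑ j, c i j ^ q * (algebraMap R S (e i) * x ^ (j : ℕ))
  have hPadd : ∀ a b, P a → P b → P (a + b) := by
    rintro a b ⟨c, hc⟩ ⟨d, hd⟩
    refine ⟨fun i j => c i j + d i j, ?_⟩
    rw [hc, hd, ← Finset.sum_add_distrib]
    refine Finset.sum_congr rfl fun i _ => ?_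
    rw [← Finset.sum_add_distrib]
    refine Finset.sum_congr rfl fun j _ => ?_
    rw [haddS, add_mul]
  have hP0 : P 0 := ⟨fun _ _ => 0, by simp [zero_pow hq.ne']⟩
  have hPmul : ∀ a b, P b → P (a ^ q * b) := by
    rintro a b ⟨d, hd⟩
    refine ⟨fun i j => a * d i j, ?_⟩
    rw [hd, Finset.mul_sum]
    refine Finset.sum_congr rfl fun i _ => ?_
    rw [Finset.mul_sum]
    refine Finset.sum_congr rfl fun j _ => ?_
    rw [mul_pow, mul_assoc]
  have hPmon : ∀ (r : R) (n : ℕ), P (algebraMap R S r * x ^ n) := by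
    intro r n
    obtain ⟨c, hc⟩ := he r
    refine ⟨fun i j => if (j : ℕ) = n % q then algebraMap R S (c i) * x ^ (n / q) else 0, ?_⟩
    conv_lhs => rw [hc, map_sum, Finset.sum_mul]
    refine Finset.sum_congr rfl fun i _ => ?_
    rw [Finset.sum_eq_single (⟨n % q, Nat.mod_lt _ hq⟩ : Fin q)]
    · dsimp only
      rw [if_pos rfl, map_mul, map_pow, mul_pow, ← pow_mul]
      have h1 : x ^ n = x ^ (n / q * q) * x ^ (n % q) := by
        rw [← pow_add]; congr 1; rw [mul_comm]; exact (Nat.div_add_mod n q).symm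
      rw [h1]; ring
    · intro j _ hj
      dsimp only
      rw [if_neg (fun h => hj (Fin.ext h)), zero_pow hq.ne', zero_mul]
    · intro h; exact absurd (Finset.mem_univ _) h
  have hPpoly : ∀ f : R[X], P (aeval x f) := by
    intro f
    induction f using Polynomial.induction_on' with
    | add p q hp hq => rw [map_add]; exact hPadd _ _ hp hq
    | monomial n r => rw [aeval_monomial]; exact hPmon r n
  obtain ⟨f, g, hg, hfg⟩ := hfrac s
  obtain ⟨u, hu⟩ := hg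
  have h1 : s = (↑u⁻¹ : S) ^ q * aeval x (f * g ^ (q - 1)) := by
    rw [map_mul, ← hfg, map_pow, ← hu]
    obtain ⟨m, rfl⟩ : ∃ m, q = m + 1 := ⟨q - 1, by omega⟩
    simp only [Nat.add_sub_cancel]
    have h2 : (↑u⁻¹ : S) ^ (m + 1) * (s * ↑u * ↑u ^ m) = s * ((↑u⁻¹ : S) * ↑u) ^ (m + 1) := by
      rw [mul_pow]; ring
    rw [h2, Units.inv_mul, one_pow, mul_one]
  rw [h1]
  exact hPmul _ _ (hPpoly _)

end

section

variable {R S K L : Type*} [CommRing R] [CommRing S] [Algebra R S]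
  [Field K] [Algebra R K] [Field L] [Algebra S L] [Algebra R L]
  [Algebra K L] [IsScalarTower R K L] [IsScalarTower R S L]

/-- `DD` for `R → R(x)` -/
theorem DD_Ru [IsDomain R] [IsFractionRing R K] [IsDomain S] [IsFractionRing S L]
    [Module.Flat R S] {q : ℕ} (hq : 0 < q)
    (haddR : ∀ x y : R, (x + y) ^ q = x ^ q + y ^ q)
    (haddS : ∀ x y : S, (x + y) ^ q = x ^ q + y ^ q)
    {φ : R →+ R} (hφ : IsCar q φ) (hφ0 : φ ≠ 0) {φS : S →+ S} (hφS : IsCar q φS)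
    {ι : Type*} [Fintype ι] (e : ι → R)
    (he : ∀ r : R, ∃ c : ι → R, r = ∑ i, c i ^ q * e i)
    (x : S) (hx : IsUnit x)
    (hfrac : ∀ y : S, ∃ f g : R[X], IsUnit (aeval x g) ∧ y * aeval x g = aeval x f)
    (hψ : ∀ (r : R) (i : ℕ), φS (algebraMap R S r * x ^ i) =
      if q ∣ i then algebraMap R S (φ r) * x ^ (i / q) else 0) :
    DD (K := L) q hq φS hφS = extS S L (DD (K := K) q hq φ hφ) := by
  obtain ⟨u, rfl⟩ := hx
  refine DD_extS hq haddR haddS hφ hφ0 hφS e he (fun j : Fin q => (u : S) ^ (j : ℕ))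
    (fun j : Fin q => ((u⁻¹ : Sˣ) : S) ^ (j : ℕ)) ⟨0, hq⟩ (by simp) ?_
    (gen_Ru hq haddS e he _ hfrac)
  intro r j l
  have hcancel : ∀ n : ℕ, ((u⁻¹ : Sˣ) : S) ^ n * (u : S) ^ n = 1 := by
    intro n
    rw [← mul_pow, Units.inv_mul, one_pow]
  rcases le_or_gt (j : ℕ) l with hjl | hjl
  · have h1 : ((u⁻¹ : Sˣ) : S) ^ (j : ℕ) * (u : S) ^ (l : ℕ) = (u : S) ^ ((l : ℕ) - j) := by
      have : (u : S) ^ (l : ℕ) = (u : S) ^ (j : ℕ) * (u : S) ^ ((l : ℕ) - j) := by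
        rw [← pow_add]; congr 1; omega
      rw [this, ← mul_assoc, hcancel, one_mul]
    rw [h1, hψ]
    by_cases hjl' : j = l
    · subst hjl'
      simp
    · have h2 : ¬ q ∣ ((l : ℕ) - j) := by
        intro hd
        have h3 : (l : ℕ) - j < q := lt_of_le_of_lt (Nat.sub_le _ _) l.2
        have h4 := Nat.eq_zero_of_dvd_of_lt hd h3
        exact hjl' (Fin.ext (by omega))
      rw [if_neg h2, if_neg hjl']
  · have h1 : algebraMap R S r * (((u⁻¹ : Sˣ) : S) ^ (j : ℕ) * (u : S) ^ (l : ℕ)) =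
        ((u⁻¹ : Sˣ) : S) ^ q * (algebraMap R S r * (u : S) ^ (q + l - j)) := by
      have h2 : (u : S) ^ q * (u : S) ^ (l : ℕ) = (u : S) ^ (j : ℕ) * (u : S) ^ (q + l - j) := by
        rw [← pow_add, ← pow_add]; congr 1; omega
      have h3 : ((u⁻¹ : Sˣ) : S) ^ (j : ℕ) * (u : S) ^ (l : ℕ) =
          ((u⁻¹ : Sˣ) : S) ^ q * (u : S) ^ (q + l - j) := by
        calc ((u⁻¹ : Sˣ) : S) ^ (j : ℕ) * (u : S) ^ (l : ℕ)
            = ((u⁻¹ : Sˣ) : S) ^ (j : ℕ) * ((((u⁻¹ : Sˣ) : S) ^ q * (u : S) ^ q) *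
              (u : S) ^ (l : ℕ)) := by rw [hcancel, one_mul]
          _ = ((u⁻¹ : Sˣ) : S) ^ (j : ℕ) * ((u⁻¹ : Sˣ) : S) ^ q *
              ((u : S) ^ q * (u : S) ^ (l : ℕ)) := by ring
          _ = (((u⁻¹ : Sˣ) : S) ^ (j : ℕ) * (u : S) ^ (j : ℕ)) * (((u⁻¹ : Sˣ) : S) ^ q *
              (u : S) ^ (q + l - j)) := by rw [h2]; ring
          _ = _ := by rw [hcancel, one_mul]
      rw [h3]; ring
    have h2 : ¬ q ∣ (q + l - j) := by
      intro hd
      have h3 : q + (l : ℕ) - j < q := by omega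
      have h4 := Nat.eq_zero_of_dvd_of_lt hd h3
      omega
    rw [h1, hφS, hψ, if_neg h2, mul_zero, if_neg]
    rintro rfl
    exact absurd hjl (lt_irrefl _)

end

end WFT12
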